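import Pool.Agent.Y549.SP.Stm3

set_option autoImplicit false

/-! # Joint splitting types: from sums of symbols to types, and Fubini's argument -/

namespace Pool.Agent.H249_JS

open Finset Pool.Agent.Y549 Pool.Agent.Y549.SP

/-- the product over `S` -/
def pr {k : ℕ} (a : Fin k → ℤ) (S : Finset (Fin k)) : ℤ := ∏ i ∈ S, a i

lemma jac_pr {k : ℕ} (a : Fin k → ℤ) (S : Finset (Fin k)) (p : ℕ) :
    jacobiSym (pr a S) p = ∏ i ∈ S, jacobiSym (a i) p := by
  classical
  unfold pr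
  induction S using Finset.induction_on with
  | empty => simp [jacobiSym.one_left]
  | insert i S hi ih => rw [prod_insert hi, prod_insert hi, jacobiSym.mul_left, ih]

lemma one_prime {k : ℕ} (a s : Fin k → ℤ) (hs : ∀ i, s i = 1 ∨ s i = -1) (p : ℕ) :
    0 ≤ ∏ i, (1 + s i * jacobiSym (a i) p) ∧ ∏ i, (1 + s i * jacobiSym (a i) p) ≤ 2 ^ k ∧
    ((∀ i, jacobiSym (a i) p ≠ 0) → ∏ i, (1 + s i * jacobiSym (a i) p) =
      if (∀ i, jacobiSym (a i) p = s i) then 2 ^ k else 0) := by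
  have h1 : ∀ i, 0 ≤ 1 + s i * jacobiSym (a i) p ∧ 1 + s i * jacobiSym (a i) p ≤ 2 := by
    intro i
    rcases hs i with h | h <;> rcases jacobiSym.trichotomy (a i) p with h' | h' | h' <;>
      rw [h, h'] <;> norm_num
  refine ⟨prod_nonneg fun i _ => (h1 i).1, ?_, ?_⟩
  · calc ∏ i, (1 + s i * jacobiSym (a i) p) ≤ ∏ _i : Fin k, (2 : ℤ) :=
          prod_le_prod (fun i _ => (h1 i).1) fun i _ => (h1 i).2
      _ = 2 ^ k := by simp
  · intro h0
    split_ifs with h
    · calc ∏ i, (1 + s i * jacobiSym (a i) p) = ∏ _i : Fin k, (2 : ℤ) := by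
            refine prod_congr rfl fun i _ => ?_
            rw [h i]
            rcases hs i with h | h <;> rw [h] <;> norm_num
        _ = 2 ^ k := by simp
    · push Not at h
      obtain ⟨i, hi⟩ := h
      refine prod_eq_zero (mem_univ i) ?_
      have h0 := h0 i
      rcases hs i with h | h <;> rcases jacobiSym.trichotomy (a i) p with h' | h' | h' <;>
        rw [h'] at hi h0 ⊢ <;> rw [h] at hi ⊢ <;> first | exact absurd rfl h0 | exact absurd rfl hi | norm_num

/-- the number of `p` in `P` of the type `s` -/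
def pat {k : ℕ} (P : Finset ℕ) (a s : Fin k → ℤ) : ℕ :=
  (P.filter (fun p => ∀ i, jacobiSym (a i) p = s i)).card

/-- the number of `p` in `P` with a vanishing symbol -/
def zer {k : ℕ} (P : Finset ℕ) (a : Fin k → ℤ) : ℕ :=
  (P.filter (fun p => ¬ ∀ i, jacobiSym (a i) p ≠ 0)).card

lemma pat_bound {k : ℕ} (P : Finset ℕ) (a s : Fin k → ℤ) (hs : ∀ i, s i = 1 ∨ s i = -1) :
    |2 ^ k * (pat P a s : ℤ) - P.card| ≤
      (∑ S ∈ univ.erase (∅ : Finset (Fin k)), |∑ p ∈ P, jacobiSym (pr a S) p|) +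
        2 ^ k * zer P a := by
  classical
  have e1 : ∑ p ∈ P, ∏ i, (1 + s i * jacobiSym (a i) p) =
      ∑ S : Finset (Fin k), (∏ i ∈ S, s i) * ∑ p ∈ P, jacobiSym (pr a S) p := by
    calc ∑ p ∈ P, ∏ i, (1 + s i * jacobiSym (a i) p)
        = ∑ p ∈ P, ∑ S : Finset (Fin k), ∏ i ∈ S, (s i * jacobiSym (a i) p) := by
          refine sum_congr rfl fun p _ => ?_
          rw [prod_one_add]
          simp
      _ = ∑ S : Finset (Fin k), ∑ p ∈ P, ∏ i ∈ S, (s i * jacobiSym (a i) p) := sum_comm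
      _ = _ := by
          refine sum_congr rfl fun S _ => ?_
          rw [mul_sum]
          refine sum_congr rfl fun p _ => ?_
          rw [prod_mul_distrib, jac_pr]
  have e2 : ∑ S : Finset (Fin k), (∏ i ∈ S, s i) * ∑ p ∈ P, jacobiSym (pr a S) p =
      P.card + ∑ S ∈ univ.erase (∅ : Finset (Fin k)), (∏ i ∈ S, s i) *
        ∑ p ∈ P, jacobiSym (pr a S) p := by
    rw [← add_sum_erase univ _ (mem_univ (∅ : Finset (Fin k)))]
    congr 1
    simp [pr, jacobiSym.one_left]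
  have e3 : ∑ p ∈ P, ∏ i, (1 + s i * jacobiSym (a i) p) = 2 ^ k * (pat P a s : ℤ) +
      ∑ p ∈ P.filter (fun p => ¬ ∀ i, jacobiSym (a i) p ≠ 0),
        ∏ i, (1 + s i * jacobiSym (a i) p) := by
    rw [← sum_filter_add_sum_filter_not P (fun p => ∀ i, jacobiSym (a i) p ≠ 0)]
    congr 1
    rw [sum_congr rfl (fun p hp => (one_prime a s hs p).2.2 (mem_filter.mp hp).2), ← sum_filter,
      filter_filter, sum_const, nsmul_eq_mul, mul_comm]
    congr 2
    unfold pat
    congr 1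
    ext p
    simp only [mem_filter]
    constructor
    · rintro ⟨h1, _, h3⟩
      exact ⟨h1, h3⟩
    · rintro ⟨h1, h3⟩
      refine ⟨h1, fun i => ?_, h3⟩
      rw [h3 i]
      rcases hs i with h | h <;> rw [h] <;> norm_num
  have h4 : 0 ≤ ∑ p ∈ P.filter (fun p => ¬ ∀ i, jacobiSym (a i) p ≠ 0),
        ∏ i, (1 + s i * jacobiSym (a i) p) := sum_nonneg fun p _ => (one_prime a s hs p).1
  have h5 : ∑ p ∈ P.filter (fun p => ¬ ∀ i, jacobiSym (a i) p ≠ 0),
        ∏ i, (1 + s i * jacobiSym (a i) p) ≤ 2 ^ k * zer P a := by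
    calc _ ≤ ∑ p ∈ P.filter (fun p => ¬ ∀ i, jacobiSym (a i) p ≠ 0), (2 : ℤ) ^ k :=
          sum_le_sum fun p _ => (one_prime a s hs p).2.1
      _ = _ := by
          rw [sum_const, nsmul_eq_mul, mul_comm]
          rfl
  have h6 : |∑ S ∈ univ.erase (∅ : Finset (Fin k)), (∏ i ∈ S, s i) *
        ∑ p ∈ P, jacobiSym (pr a S) p| ≤
      ∑ S ∈ univ.erase (∅ : Finset (Fin k)), |∑ p ∈ P, jacobiSym (pr a S) p| := by
    refine (abs_sum_le_sum_abs _ _).trans (sum_le_sum fun S _ => ?_)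
    rw [abs_mul]
    have h7 : |∏ i ∈ S, s i| = 1 := by
      rw [abs_prod]
      refine prod_eq_one fun i _ => ?_
      rcases hs i with h | h <;> rw [h] <;> norm_num
    rw [h7, one_mul]
  have h8 : 2 ^ k * (pat P a s : ℤ) - P.card = (∑ S ∈ univ.erase (∅ : Finset (Fin k)),
      (∏ i ∈ S, s i) * ∑ p ∈ P, jacobiSym (pr a S) p) -
      ∑ p ∈ P.filter (fun p => ¬ ∀ i, jacobiSym (a i) p ≠ 0),
        ∏ i, (1 + s i * jacobiSym (a i) p) := by
    have := e3.symm.trans (e1.trans e2)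
    linarith
  rw [h8]
  calc _ ≤ |∑ S ∈ univ.erase (∅ : Finset (Fin k)),
      (∏ i ∈ S, s i) * ∑ p ∈ P, jacobiSym (pr a S) p| +
      |∑ p ∈ P.filter (fun p => ¬ ∀ i, jacobiSym (a i) p ≠ 0),
        ∏ i, (1 + s i * jacobiSym (a i) p)| := abs_sub _ _
    _ ≤ _ := by
      rw [abs_of_nonneg h4]
      exact add_le_add h6 h5

/-- if all the sums over nonempty `S` are small then the types are equidistributed -/
lemma pat_real {k : ℕ} (P : Finset ℕ) (a s : Fin k → ℤ) (hs : ∀ i, s i = 1 ∨ s i = -1) (η : ℝ)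
    (hη : 0 ≤ η) (h : ∀ S : Finset (Fin k), S.Nonempty →
      |((∑ p ∈ P, jacobiSym (pr a S) p : ℤ) : ℝ)| ≤ η * P.card) :
    |2 ^ k * (pat P a s : ℝ) - P.card| ≤ 2 ^ k * (η * P.card) + 2 ^ k * zer P a := by
  classical
  have h1 := pat_bound P a s hs
  have h2 : |2 ^ k * (pat P a s : ℝ) - P.card| ≤
      (∑ S ∈ univ.erase (∅ : Finset (Fin k)), |((∑ p ∈ P, jacobiSym (pr a S) p : ℤ) : ℝ)|) +
        2 ^ k * zer P a := by
    have h3 : ((|2 ^ k * (pat P a s : ℤ) - P.card| : ℤ) : ℝ) ≤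
      (((∑ S ∈ univ.erase (∅ : Finset (Fin k)), |∑ p ∈ P, jacobiSym (pr a S) p|) +
        2 ^ k * zer P a : ℤ) : ℝ) := Int.cast_le.mpr h1
    push_cast at h3
    push_cast
    exact h3
  refine h2.trans (add_le_add ?_ le_rfl)
  have h0 : (0 : ℝ) ≤ η * P.card := by positivity
  calc ∑ S ∈ univ.erase (∅ : Finset (Fin k)), |((∑ p ∈ P, jacobiSym (pr a S) p : ℤ) : ℝ)|
      ≤ ∑ _S ∈ univ.erase (∅ : Finset (Fin k)), η * P.card :=
        sum_le_sum fun S hS => h S (nonempty_iff_ne_empty.mpr (mem_erase.mp hS).1)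
    _ ≤ ∑ _S : Finset (Fin k), η * P.card :=
        sum_le_sum_of_subset_of_nonneg (erase_subset _ _) fun _ _ _ => h0
    _ = 2 ^ k * (η * P.card) := by simp

/-- Fubini's argument: one set `S` -/
lemma fub_one {k : ℕ} (Q : Set ℕ) (X y : ℕ) (b : ℝ) (η : ℝ)
    (hB : ∀ D : ℤ, (((SP.sq X).filter (fun m => η * (oq Q y).card ≤ (|sd Q D m y| : ℝ))).card : ℝ) ≤ b)
    (D : Fin k → ℤ) (S : Finset (Fin k)) (hS : S.Nonempty) :
    (((Fintype.piFinset fun _ : Fin k => SP.sq X).filter (fun m : Fin k → ℕ =>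
      η * (oq Q y).card ≤ |((∑ p ∈ oq Q y, jacobiSym (pr (fun i => D i * (m i : ℤ)) S) p : ℤ) : ℝ)|)).card : ℝ) ≤
      b * (X : ℝ) ^ (k - 1) := by
  classical
  obtain ⟨j, hj⟩ := hS
  set F := (Fintype.piFinset fun _ : Fin k => SP.sq X).filter (fun m : Fin k → ℕ =>
      η * (oq Q y).card ≤ |((∑ p ∈ oq Q y, jacobiSym (pr (fun i => D i * (m i : ℤ)) S) p : ℤ) : ℝ)|) with hF
  set R := Fintype.piFinset (fun i : Fin k => if i = j then ({1} : Finset ℕ) else SP.sq X) with hR
  have hb0 : 0 ≤ b := (Nat.cast_nonneg _).trans (hB 0)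
  have hmaps : ∀ m ∈ F, Function.update m j 1 ∈ R := by
    intro m hm
    rw [hF, mem_filter, Fintype.mem_piFinset] at hm
    rw [hR, Fintype.mem_piFinset]
    intro i
    by_cases h : i = j
    · subst h; simp
    · simp [h, Function.update_of_ne h, hm.1 i]
  have hfib : ∀ r ∈ R, (F.filter (fun m => Function.update m j 1 = r)).card ≤ ⌊b⌋₊ := by
    intro r hr
    apply Nat.le_floor
    refine le_trans ?_ (hB (D j * pr (fun i => D i * (r i : ℤ)) (S.erase j)))
    have hinj : (F.filter (fun m => Function.update m j 1 = r)).card ≤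
        ((SP.sq X).filter (fun n => η * (oq Q y).card ≤
          (|sd Q (D j * pr (fun i => D i * (r i : ℤ)) (S.erase j)) n y| : ℝ))).card := by
      refine card_le_card_of_injOn (fun m => m j) ?_ ?_
      · intro m hm
        have hm := mem_coe.mp hm
        rw [mem_filter, hF, mem_filter, Fintype.mem_piFinset] at hm
        obtain ⟨⟨h1, h2⟩, h3⟩ := hm
        rw [mem_coe, mem_filter]
        refine ⟨h1 j, ?_⟩
        have e1 : pr (fun i => D i * (m i : ℤ)) S =
            D j * pr (fun i => D i * (r i : ℤ)) (S.erase j) * (m j : ℤ) := by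
          unfold pr
          rw [← mul_prod_erase S _ hj]
          have e2 : ∏ i ∈ S.erase j, D i * (r i : ℤ) = ∏ i ∈ S.erase j, D i * (m i : ℤ) := by
            refine prod_congr rfl fun i hi => ?_
            rw [← h3, Function.update_of_ne (mem_erase.mp hi).1]
          rw [e2]
          ring
        unfold sd
        rw [e1] at h2
        exact_mod_cast h2
      · intro m hm m' hm' h
        have hm := mem_coe.mp hm
        have hm' := mem_coe.mp hm'
        rw [mem_filter] at hm hm'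
        funext i
        by_cases hi : i = j
        · subst hi; exact h
        · have := congrFun (hm.2.trans hm'.2.symm) i
          rwa [Function.update_of_ne hi, Function.update_of_ne hi] at this
    exact_mod_cast hinj
  have h1 := card_le_mul_card_image_of_maps_to hmaps ⌊b⌋₊ hfib
  have hRc : R.card ≤ X ^ (k - 1) := by
    rw [hR, Fintype.card_piFinset, ← mul_prod_erase univ _ (mem_univ j)]
    have h2 : ∏ i ∈ univ.erase j, (if i = j then ({1} : Finset ℕ) else SP.sq X).card ≤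
        ∏ _i ∈ univ.erase j, X := by
      refine prod_le_prod' fun i hi => ?_
      rw [if_neg (mem_erase.mp hi).1]
      unfold SP.sq
      refine (card_filter_le _ _).trans ?_
      simp
    rw [if_pos rfl, card_singleton, one_mul]
    refine h2.trans ?_
    rw [prod_const, card_erase_of_mem (mem_univ j), card_univ, Fintype.card_fin]
  calc (F.card : ℝ) ≤ ((⌊b⌋₊ * R.card : ℕ) : ℝ) := by exact_mod_cast h1
    _ ≤ b * (X : ℝ) ^ (k - 1) := by
        push_cast
        refine mul_le_mul (Nat.floor_le hb0) ?_ (by positivity) hb0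
        exact_mod_cast hRc

/-- Fubini's argument: all sets `S` -/
lemma fub_all {k : ℕ} (Q : Set ℕ) (X y : ℕ) (b : ℝ) (η : ℝ)
    (hB : ∀ D : ℤ, (((SP.sq X).filter (fun m => η * (oq Q y).card ≤ (|sd Q D m y| : ℝ))).card : ℝ) ≤ b)
    (D : Fin k → ℤ) :
    (((Fintype.piFinset fun _ : Fin k => SP.sq X).filter (fun m : Fin k → ℕ =>
      ∃ S : Finset (Fin k), S.Nonempty ∧ η * (oq Q y).card ≤
        |((∑ p ∈ oq Q y, jacobiSym (pr (fun i => D i * (m i : ℤ)) S) p : ℤ) : ℝ)|)).card : ℝ) ≤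
      2 ^ k * (b * (X : ℝ) ^ (k - 1)) := by
  classical
  have hb0 : 0 ≤ b := (Nat.cast_nonneg _).trans (hB 0)
  have hsub : ((Fintype.piFinset fun _ : Fin k => SP.sq X).filter (fun m : Fin k → ℕ =>
      ∃ S : Finset (Fin k), S.Nonempty ∧ η * (oq Q y).card ≤
        |((∑ p ∈ oq Q y, jacobiSym (pr (fun i => D i * (m i : ℤ)) S) p : ℤ) : ℝ)|)) ⊆
      (univ.filter (fun S : Finset (Fin k) => S.Nonempty)).biUnion (fun S =>
        ((Fintype.piFinset fun _ : Fin k => SP.sq X).filter (fun m : Fin k → ℕ =>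
      η * (oq Q y).card ≤ |((∑ p ∈ oq Q y, jacobiSym (pr (fun i => D i * (m i : ℤ)) S) p : ℤ) : ℝ)|))) := by
    intro m hm
    rw [mem_filter] at hm
    obtain ⟨h1, S, hS, h2⟩ := hm
    rw [mem_biUnion]
    exact ⟨S, mem_filter.mpr ⟨mem_univ _, hS⟩, mem_filter.mpr ⟨h1, h2⟩⟩
  calc _ ≤ ((∑ S ∈ univ.filter (fun S : Finset (Fin k) => S.Nonempty),
        ((Fintype.piFinset fun _ : Fin k => SP.sq X).filter (fun m : Fin k → ℕ =>
      η * (oq Q y).card ≤ |((∑ p ∈ oq Q y, jacobiSym (pr (fun i => D i * (m i : ℤ)) S) p : ℤ) : ℝ)|)).card : ℕ) : ℝ) := by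
        exact_mod_cast (card_le_card hsub).trans card_biUnion_le
    _ ≤ ∑ S ∈ univ.filter (fun S : Finset (Fin k) => S.Nonempty), b * (X : ℝ) ^ (k - 1) := by
        rw [Nat.cast_sum]
        exact sum_le_sum fun S hS => fub_one Q X y b η hB D S (mem_filter.mp hS).2
    _ ≤ ∑ _S : Finset (Fin k), b * (X : ℝ) ^ (k - 1) :=
        sum_le_sum_of_subset_of_nonneg (filter_subset _ _) fun _ _ _ => by positivity
    _ = _ := by simp

end Pool.Agent.H249_JS
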