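import Pool.Agent.H249_JS.A
import Pool.Agent.Y549.SP.SPL

set_option autoImplicit false

/-! # Joint splitting types: the passage to primes in quadratic fields -/

namespace Pool.Agent.H249_JS

open Finset Pool.Agent.Y549 Pool.Agent.Y549.SP

/-- `p` splits in the quadratic field of discriminant `d` -/
def Splits (d : ℤ) (p : ℕ) : Prop := ¬ (p : ℤ) ∣ d ∧ ∃ x : ℤ, (4 * (p : ℤ)) ∣ x ^ 2 - d

/-- `p` is inert in the quadratic field of discriminant `d` -/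
def Inert (d : ℤ) (p : ℕ) : Prop := ¬ (p : ℤ) ∣ d ∧ ¬ ∃ x : ℤ, (4 * (p : ℤ)) ∣ x ^ 2 - d

/-- `p` has the type `σ` -/
def HasType {k : ℕ} (d : Fin k → ℤ) (σ : Fin k → Bool) (p : ℕ) : Prop :=
  ∀ i, if σ i = true then Splits (d i) p else Inert (d i) p

/-- the number of the primes `p ≤ y` in `Q` of the type `σ` -/
noncomputable def cnt {k : ℕ} (Q : Set ℕ) (d : Fin k → ℤ) (σ : Fin k → Bool) (y : ℕ) : ℕ :=
  Set.ncard {p : ℕ | p.Prime ∧ p ≤ y ∧ p ∈ Q ∧ HasType d σ p}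

/-- the sign of a type -/
def sg {k : ℕ} (σ : Fin k → Bool) (i : Fin k) : ℤ := if σ i = true then 1 else -1

lemma sg_pm {k : ℕ} (σ : Fin k → Bool) (i : Fin k) : sg σ i = 1 ∨ sg σ i = -1 := by
  unfold sg
  split_ifs <;> simp

lemma type_iff {k : ℕ} (d : Fin k → ℤ) (hd : ∀ i, d i % 4 = 0 ∨ d i % 4 = 1) (σ : Fin k → Bool)
    (p : ℕ) (hp : p.Prime) (hp2 : p ≠ 2) :
    HasType d σ p ↔ ∀ i, jacobiSym (d i) p = sg σ i := by
  unfold HasType
  refine forall_congr' fun i => ?_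
  have h1 := SPL.split_iff (d i) (hd i) p hp hp2
  have hF : Fact p.Prime := ⟨hp⟩
  have h0 : jacobiSym (d i) p = 0 ↔ (p : ℤ) ∣ d i := by
    rw [← jacobiSym.legendreSym.to_jacobiSym, legendreSym.eq_zero_iff,
      ZMod.intCast_zmod_eq_zero_iff_dvd]
  unfold sg
  split_ifs with h
  · exact h1
  · unfold Inert
    constructor
    · rintro ⟨h2, h3⟩
      rcases jacobiSym.trichotomy (d i) p with h' | h' | h'
      · exact absurd (h0.mp h') h2
      · exact absurd (h1.mpr h').2 h3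
      · exact h'
    · intro h2
      refine ⟨fun h3 => ?_, fun h3 => ?_⟩
      · rw [h0.mpr h3] at h2
        norm_num at h2
      · have h4 : ¬ (p : ℤ) ∣ d i := fun h3 => by
          rw [h0.mpr h3] at h2
          norm_num at h2
        rw [h1.mp ⟨h4, h3⟩] at h2
        norm_num at h2

open Classical in
lemma cnt_pat {k : ℕ} (Q : Set ℕ) (d : Fin k → ℤ) (hd : ∀ i, d i % 4 = 0 ∨ d i % 4 = 1)
    (σ : Fin k → Bool) (y : ℕ) :
    pat (oq Q y) d (sg σ) ≤ cnt Q d σ y ∧ cnt Q d σ y ≤ pat (oq Q y) d (sg σ) + 1 ∧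
    (oq Q y).card ≤ (primesIn Q y).ncard ∧ (primesIn Q y).ncard ≤ (oq Q y).card + 1 := by
  have e1 : {p : ℕ | p.Prime ∧ p ≤ y ∧ p ∈ Q ∧ HasType d σ p} =
      (((range (y + 1)).filter (fun p => p.Prime ∧ p ∈ Q ∧ HasType d σ p) : Finset ℕ) : Set ℕ) := by
    ext p
    simp only [Set.mem_setOf_eq, coe_filter, mem_range]
    constructor
    · rintro ⟨h1, h2, h3, h4⟩
      exact ⟨by omega, h1, h3, h4⟩
    · rintro ⟨h1, h2, h3, h4⟩
      exact ⟨h2, by omega, h3, h4⟩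
  have e2 : primesIn Q y =
      (((range (y + 1)).filter (fun p => p.Prime ∧ p ∈ Q) : Finset ℕ) : Set ℕ) := by
    ext p
    simp only [primesIn, Set.mem_setOf_eq, coe_filter, mem_range]
    constructor
    · rintro ⟨h1, h2, h3⟩
      exact ⟨by omega, h1, h3⟩
    · rintro ⟨h1, h2, h3⟩
      exact ⟨h2, by omega, h3⟩
  unfold cnt
  rw [e1, e2, Set.ncard_coe_finset, Set.ncard_coe_finset]
  have s1 : (oq Q y).filter (fun p => ∀ i, jacobiSym (d i) p = sg σ i) ⊆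
      (range (y + 1)).filter (fun p => p.Prime ∧ p ∈ Q ∧ HasType d σ p) := by
    intro p hp
    rw [mem_filter, oq, mem_filter] at hp
    rw [mem_filter]
    exact ⟨hp.1.1, hp.1.2.1, hp.1.2.2.2, (type_iff d hd σ p hp.1.2.1 hp.1.2.2.1).mpr hp.2⟩
  have s2 : (range (y + 1)).filter (fun p => p.Prime ∧ p ∈ Q ∧ HasType d σ p) ⊆
      insert 2 ((oq Q y).filter (fun p => ∀ i, jacobiSym (d i) p = sg σ i)) := by
    intro p hp
    rw [mem_filter] at hp
    rw [mem_insert]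
    by_cases h2 : p = 2
    · exact Or.inl h2
    · refine Or.inr ?_
      rw [mem_filter, oq, mem_filter]
      exact ⟨⟨hp.1, hp.2.1, h2, hp.2.2.1⟩, (type_iff d hd σ p hp.2.1 h2).mp hp.2.2.2⟩
  have s3 : oq Q y ⊆ (range (y + 1)).filter (fun p => p.Prime ∧ p ∈ Q) := by
    intro p hp
    rw [oq, mem_filter] at hp
    rw [mem_filter]
    exact ⟨hp.1, hp.2.1, hp.2.2.2⟩
  have s4 : (range (y + 1)).filter (fun p => p.Prime ∧ p ∈ Q) ⊆ insert 2 (oq Q y) := by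
    intro p hp
    rw [mem_filter] at hp
    rw [mem_insert]
    by_cases h2 : p = 2
    · exact Or.inl h2
    · refine Or.inr ?_
      rw [oq, mem_filter]
      exact ⟨hp.1, hp.2.1, h2, hp.2.2⟩
  unfold pat
  exact ⟨card_le_card s1, (card_le_card s2).trans (card_insert_le _ _), card_le_card s3,
    (card_le_card s4).trans (card_insert_le _ _)⟩

lemma zer_le {k : ℕ} (Q : Set ℕ) (y : ℕ) (d : Fin k → ℤ) (hd : ∀ i, d i ≠ 0) (Z : ℝ)
    (hZ : ∀ i, Real.log |(d i : ℝ)| ≤ Z) : (zer (oq Q y) d : ℝ) ≤ k * (2 * Z) := by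
  classical
  have h1 : (oq Q y).filter (fun p => ¬ ∀ i, jacobiSym (d i) p ≠ 0) ⊆
      univ.biUnion (fun i => (d i).natAbs.primeFactors) := by
    intro p hp
    rw [mem_filter, oq, mem_filter] at hp
    obtain ⟨⟨_, hp1, _⟩, hp2⟩ := hp
    push Not at hp2
    obtain ⟨i, hi⟩ := hp2
    rw [mem_biUnion]
    refine ⟨i, mem_univ _, ?_⟩
    rw [Nat.mem_primeFactors]
    have hF : Fact p.Prime := ⟨hp1⟩
    rw [← jacobiSym.legendreSym.to_jacobiSym, legendreSym.eq_zero_iff,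
      ZMod.intCast_zmod_eq_zero_iff_dvd] at hi
    exact ⟨hp1, Int.natCast_dvd.mp hi, Int.natAbs_ne_zero.mpr (hd i)⟩
  unfold zer
  calc ((((oq Q y).filter (fun p => ¬ ∀ i, jacobiSym (d i) p ≠ 0)).card : ℕ) : ℝ)
      ≤ ((∑ i : Fin k, ((d i).natAbs.primeFactors).card : ℕ) : ℝ) := by
        exact_mod_cast (card_le_card h1).trans card_biUnion_le
    _ = ∑ i : Fin k, (((d i).natAbs.primeFactors).card : ℝ) := by rw [Nat.cast_sum]
    _ ≤ ∑ _i : Fin k, 2 * Z := by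
        refine sum_le_sum fun i _ => ?_
        refine (SPL.card_primeFactors_le _ (Int.natAbs_ne_zero.mpr (hd i))).trans ?_
        have h2 : (((d i).natAbs : ℕ) : ℝ) = |(d i : ℝ)| := by
          rw [Nat.cast_natAbs, Int.cast_abs]
        rw [h2]
        linarith [hZ i]
    _ = k * (2 * Z) := by simp

lemma pat_congr {k : ℕ} (P : Finset ℕ) (a b s : Fin k → ℤ)
    (h : ∀ p ∈ P, ∀ i, jacobiSym (a i) p = jacobiSym (b i) p) :
    pat P a s = pat P b s ∧ zer P a = zer P b := by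
  classical
  unfold pat zer
  constructor
  · congr 1
    refine filter_congr fun p hp => ?_
    refine forall_congr' fun i => ?_
    rw [h p hp i]
  · congr 1
    refine filter_congr fun p hp => ?_
    rw [not_iff_not]
    refine forall_congr' fun i => ?_
    rw [h p hp i]

lemma large (k : ℕ) (ρ τ κ η : ℝ) (hτρ : τ < ρ) (hτ : 0 < τ) (hκ : 0 < κ) (hη : 0 < η) :
    ∃ y₀ : ℕ, 2 ≤ y₀ ∧ ∀ y : ℕ, y₀ ≤ y → ∀ N : ℝ, κ * (y : ℝ) ^ ρ ≤ N * Real.log y →
      2 ^ k * (k * (2 * (2 * (y : ℝ) ^ τ))) + 2 ^ k + 1 ≤ η * N := by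
  set δ : ℝ := (ρ - τ) / 2 with hδ
  have hδ0 : 0 < δ := by rw [hδ]; linarith
  set B : ℝ := 2 ^ k * (k * 4) + 2 ^ k + 1 with hB
  have hB0 : 0 < B := by positivity
  have h1 : ∀ᶠ y : ℝ in Filter.atTop, Real.log y ≤ (η * κ / B) * y ^ (2 * δ) := by
    have := (isLittleO_log_rpow_atTop (show (0 : ℝ) < 2 * δ by positivity)).def
      (show 0 < η * κ / B by positivity)
    filter_upwards [this, Filter.eventually_ge_atTop 1] with y hy hy1
    rw [Real.norm_of_nonneg (Real.log_nonneg hy1), Real.norm_of_nonneg (by positivity)] at hy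
    exact hy
  obtain ⟨Y, hY⟩ := Filter.eventually_atTop.mp h1
  refine ⟨max 2 ⌈Y⌉₊, le_max_left _ _, fun y hy N hN => ?_⟩
  have hy2 : 2 ≤ y := (le_max_left _ _).trans hy
  have hyY : Y ≤ y := (Nat.le_ceil _).trans (by exact_mod_cast (le_max_right _ _).trans hy)
  have hlog := hY y hyY
  have hy1 : (1 : ℝ) < y := by exact_mod_cast (by omega : 1 < y)
  have hy0 : (0 : ℝ) < y := by linarith
  have hl0 : 0 < Real.log y := Real.log_pos hy1
  have hyt : 1 ≤ (y : ℝ) ^ τ := Real.one_le_rpow hy1.le hτ.le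
  have h2 : 2 ^ k * (k * (2 * (2 * (y : ℝ) ^ τ))) + 2 ^ k + 1 ≤ B * (y : ℝ) ^ τ := by
    rw [hB]
    have : (0 : ℝ) < 2 ^ k := by positivity
    nlinarith
  refine h2.trans ?_
  have h3 : B * (y : ℝ) ^ τ * Real.log y ≤ η * N * Real.log y := by
    calc B * (y : ℝ) ^ τ * Real.log y ≤ B * (y : ℝ) ^ τ * ((η * κ / B) * (y : ℝ) ^ (2 * δ)) :=
          mul_le_mul_of_nonneg_left hlog (by positivity)
      _ = η * (κ * ((y : ℝ) ^ τ * (y : ℝ) ^ (2 * δ))) := by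
          field_simp
      _ = η * (κ * (y : ℝ) ^ ρ) := by
          rw [← Real.rpow_add hy0, hδ]
          congr 3
          ring
      _ ≤ η * (N * Real.log y) := mul_le_mul_of_nonneg_left hN hη.le
      _ = η * N * Real.log y := by ring
  exact le_of_mul_le_mul_right h3 hl0

/-- the types are equidistributed if the sums are small -/
lemma core (k : ℕ) (ρ τ κ η : ℝ) (hτρ : τ < ρ) (hτ : 0 < τ) (hκ : 0 < κ) (hη : 0 < η) :
    ∃ y₀ : ℕ, 2 ≤ y₀ ∧ ∀ (Q : Set ℕ) (y : ℕ), y₀ ≤ y →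
      κ * (y : ℝ) ^ ρ ≤ (oq Q y).card * Real.log y →
      ∀ d a : Fin k → ℤ, (∀ i, d i % 4 = 0 ∨ d i % 4 = 1) → (∀ i, d i ≠ 0) →
      (∀ p ∈ oq Q y, ∀ i, jacobiSym (d i) p = jacobiSym (a i) p) →
      (∀ i, Real.log |(d i : ℝ)| ≤ 2 * (y : ℝ) ^ τ) →
      (∀ S : Finset (Fin k), S.Nonempty → ¬ η / 2 ^ (k + 1) * (oq Q y).card ≤
        |((∑ p ∈ oq Q y, jacobiSym (pr a S) p : ℤ) : ℝ)|) →
      ∀ σ : Fin k → Bool, |2 ^ k * (cnt Q d σ y : ℝ) - (primesIn Q y).ncard| ≤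
        η * (primesIn Q y).ncard := by
  obtain ⟨y₀, hy2, hy₀⟩ := large k ρ τ κ (η / 2) hτρ hτ hκ (by positivity)
  refine ⟨y₀, hy2, fun Q y hy hQ d a hd hd0 hda hlog hS σ => ?_⟩
  have h1 := hy₀ y hy _ hQ
  obtain ⟨c1, c2, c3, c4⟩ := cnt_pat Q d hd σ y
  have hz := zer_le Q y d hd0 _ hlog
  have hpr := pat_real (oq Q y) a (sg σ) (sg_pm σ) (η / 2 ^ (k + 1)) (by positivity)
    (fun S hS' => (not_le.mp (hS S hS')).le)
  obtain ⟨e1, e2⟩ := pat_congr (oq Q y) d a (sg σ) hda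
  rw [← e1, ← e2] at hpr
  have h2k : (0 : ℝ) < 2 ^ k := by positivity
  have e3 : (2 : ℝ) ^ k * (η / 2 ^ (k + 1) * (oq Q y).card) = η / 2 * (oq Q y).card := by
    rw [pow_succ]
    field_simp
  rw [e3] at hpr
  have c1' : (pat (oq Q y) d (sg σ) : ℝ) ≤ cnt Q d σ y := by exact_mod_cast c1
  have c2' : (cnt Q d σ y : ℝ) ≤ pat (oq Q y) d (sg σ) + 1 := by exact_mod_cast c2
  have c3' : ((oq Q y).card : ℝ) ≤ (primesIn Q y).ncard := by exact_mod_cast c3
  have c4' : ((primesIn Q y).ncard : ℝ) ≤ (oq Q y).card + 1 := by exact_mod_cast c4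
  have hz' : (2 : ℝ) ^ k * zer (oq Q y) d ≤ 2 ^ k * (k * (2 * (2 * (y : ℝ) ^ τ))) :=
    mul_le_mul_of_nonneg_left hz h2k.le
  rw [abs_le] at hpr ⊢
  have g1 := mul_le_mul_of_nonneg_left c1' h2k.le
  have g2 := mul_le_mul_of_nonneg_left c2' h2k.le
  have g3 := mul_le_mul_of_nonneg_left c3' hη.le
  constructor <;> nlinarith [hpr.1, hpr.2]

end Pool.Agent.H249_JS
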