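import Pool.Agent.H249_JS.B

set_option autoImplicit false

/-! # Joint splitting types: the union over `y` and the range theorem -/

namespace Pool.Agent.H249_JS

open Finset Pool.Agent.Y549 Pool.Agent.Y549.SP

open Classical in
/-- few tuples have a large sum for some `y` -/
lemma union_y (hB : S_BAD3) (k : ℕ) (hk : 1 ≤ k) (A ρ κ η ε : ℝ) (hρ : 0 < ρ) (hρ1 : ρ ≤ 1)
    (hA : 1 < A * ρ) (hκ : 0 < κ) (hκ1 : κ ≤ 1) (hη : 0 < η) (hη1 : η ≤ 1) (hε : 0 < ε) :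
    ∃ c K : ℝ, 0 < c ∧ 0 < K ∧ ∀ (Q : Set ℕ) (X : ℕ) (D : Fin k → ℤ), 1 ≤ X →
    (((Fintype.piFinset fun _ : Fin k => SP.sq X).filter (fun m : Fin k → ℕ =>
      ∃ y : ℕ, (Real.log X / A) ^ A ≤ y ∧ (y : ℝ) ≤ (X : ℝ) ^ c ∧
        κ * (y : ℝ) ^ ρ ≤ (oq Q y).card * Real.log y ∧
        ∃ S : Finset (Fin k), S.Nonempty ∧ η * (oq Q y).card ≤
          |((∑ p ∈ oq Q y, jacobiSym (pr (fun i => D i * (m i : ℤ)) S) p : ℤ) : ℝ)|)).card : ℝ) ≤
      K * (X : ℝ) ^ (k - ρ + 1 / A + ε) := by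
  obtain ⟨c₀, K₀, hc₀, hK₀, hbad⟩ := hB A ρ κ η (ε / 2) hρ hρ1 hA hκ hκ1 hη hη1 (by positivity)
  refine ⟨min c₀ (ε / 2), 2 ^ (k + 1) * K₀, lt_min hc₀ (by positivity), by positivity,
    fun Q X D hX => ?_⟩
  have hX1 : (1 : ℝ) ≤ X := by exact_mod_cast hX
  have hX0 : (0 : ℝ) < X := by linarith
  set c : ℝ := min c₀ (ε / 2) with hc
  have hcc : c ≤ c₀ := min_le_left _ _
  have hce : c ≤ ε / 2 := min_le_right _ _
  have hc0 : 0 < c := lt_min hc₀ (by positivity)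
  set G : ℕ → Finset (Fin k → ℕ) := fun y => (Fintype.piFinset fun _ : Fin k => SP.sq X).filter
    (fun m : Fin k → ℕ => ∃ S : Finset (Fin k), S.Nonempty ∧ η * (oq Q y).card ≤
        |((∑ p ∈ oq Q y, jacobiSym (pr (fun i => D i * (m i : ℤ)) S) p : ℤ) : ℝ)|) with hG
  set Y : Finset ℕ := (range (⌊(X : ℝ) ^ c⌋₊ + 1)).filter (fun y : ℕ =>
    (Real.log X / A) ^ A ≤ y ∧ (y : ℝ) ≤ (X : ℝ) ^ c ∧
        κ * (y : ℝ) ^ ρ ≤ (oq Q y).card * Real.log y) with hY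
  have hsub : ((Fintype.piFinset fun _ : Fin k => SP.sq X).filter (fun m : Fin k → ℕ =>
      ∃ y : ℕ, (Real.log X / A) ^ A ≤ y ∧ (y : ℝ) ≤ (X : ℝ) ^ c ∧
        κ * (y : ℝ) ^ ρ ≤ (oq Q y).card * Real.log y ∧
        ∃ S : Finset (Fin k), S.Nonempty ∧ η * (oq Q y).card ≤
          |((∑ p ∈ oq Q y, jacobiSym (pr (fun i => D i * (m i : ℤ)) S) p : ℤ) : ℝ)|)) ⊆
      Y.biUnion G := by
    intro m hm
    rw [mem_filter] at hm
    obtain ⟨h1, y, h2, h3, h4, h5⟩ := hm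
    rw [mem_biUnion]
    refine ⟨y, ?_, ?_⟩
    · rw [hY, mem_filter, mem_range]
      have := Nat.le_floor h3
      exact ⟨by omega, h2, h3, h4⟩
    · rw [hG, mem_filter]
      exact ⟨h1, h5⟩
  have hb : ∀ y ∈ Y, ((G y).card : ℝ) ≤
      2 ^ k * (K₀ * (X : ℝ) ^ (1 - ρ + 1 / A + ε / 2) * (X : ℝ) ^ (k - 1)) := by
    intro y hy
    rw [hY, mem_filter] at hy
    obtain ⟨_, h2, h3, h4⟩ := hy
    refine fub_all Q X y _ η (fun D' => ?_) D
    exact hbad D' Q X y hX h2 (h3.trans (Real.rpow_le_rpow_of_exponent_le hX1 hcc)) h4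
  have hYc : (Y.card : ℝ) ≤ 2 * (X : ℝ) ^ (ε / 2) := by
    have h1 : (Y.card : ℝ) ≤ (⌊(X : ℝ) ^ c⌋₊ : ℝ) + 1 := by
      have := card_filter_le (range (⌊(X : ℝ) ^ c⌋₊ + 1)) (fun y : ℕ =>
        (Real.log X / A) ^ A ≤ y ∧ (y : ℝ) ≤ (X : ℝ) ^ c ∧
        κ * (y : ℝ) ^ ρ ≤ (oq Q y).card * Real.log y)
      rw [card_range] at this
      exact_mod_cast this
    have h2 : (⌊(X : ℝ) ^ c⌋₊ : ℝ) ≤ (X : ℝ) ^ c := Nat.floor_le (by positivity)
    have h3 : (X : ℝ) ^ c ≤ (X : ℝ) ^ (ε / 2) := Real.rpow_le_rpow_of_exponent_le hX1 hce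
    have h4 : (1 : ℝ) ≤ (X : ℝ) ^ (ε / 2) := Real.one_le_rpow hX1 (by positivity)
    linarith
  have hpow : (X : ℝ) ^ (1 - ρ + 1 / A + ε / 2) * (X : ℝ) ^ (k - 1) * (X : ℝ) ^ (ε / 2) =
      (X : ℝ) ^ ((k : ℝ) - ρ + 1 / A + ε) := by
    rw [← Real.rpow_natCast (X : ℝ) (k - 1), ← Real.rpow_add hX0, ← Real.rpow_add hX0]
    congr 1
    rw [Nat.cast_sub hk]
    push_cast
    ring
  calc _ ≤ ((∑ y ∈ Y, (G y).card : ℕ) : ℝ) := by
        exact_mod_cast (card_le_card hsub).trans card_biUnion_le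
    _ ≤ ∑ y ∈ Y, 2 ^ k * (K₀ * (X : ℝ) ^ (1 - ρ + 1 / A + ε / 2) * (X : ℝ) ^ (k - 1)) := by
        rw [Nat.cast_sum]
        exact sum_le_sum hb
    _ = Y.card * (2 ^ k * (K₀ * (X : ℝ) ^ (1 - ρ + 1 / A + ε / 2) * (X : ℝ) ^ (k - 1))) := by
        rw [sum_const, nsmul_eq_mul]
    _ ≤ 2 * (X : ℝ) ^ (ε / 2) *
        (2 ^ k * (K₀ * (X : ℝ) ^ (1 - ρ + 1 / A + ε / 2) * (X : ℝ) ^ (k - 1))) :=
        mul_le_mul_of_nonneg_right hYc (by positivity)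
    _ = 2 ^ (k + 1) * K₀ * ((X : ℝ) ^ (1 - ρ + 1 / A + ε / 2) * (X : ℝ) ^ (k - 1) *
        (X : ℝ) ^ (ε / 2)) := by
        rw [pow_succ]
        ring
    _ = _ := by rw [hpow]

/-- thick sets in terms of odd primes -/
lemma thick_oq (ρ κ : ℝ) (hρ : 0 < ρ) (hκ : 0 < κ) : ∃ y₁ : ℕ, 2 ≤ y₁ ∧ ∀ (Q : Set ℕ) (y : ℕ),
    y₁ ≤ y → κ * (y : ℝ) ^ ρ ≤ (primesIn Q y).ncard * Real.log y →
      min κ 1 / 2 * (y : ℝ) ^ ρ ≤ (oq Q y).card * Real.log y := by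
  have h1 : ∀ᶠ y : ℝ in Filter.atTop, Real.log y ≤ (κ / 2) * y ^ ρ := by
    have := (isLittleO_log_rpow_atTop hρ).def (show 0 < κ / 2 by positivity)
    filter_upwards [this, Filter.eventually_ge_atTop 1] with y hy hy1
    rw [Real.norm_of_nonneg (Real.log_nonneg hy1), Real.norm_of_nonneg (by positivity)] at hy
    exact hy
  obtain ⟨Y, hY⟩ := Filter.eventually_atTop.mp h1
  refine ⟨max 2 ⌈Y⌉₊, le_max_left _ _, fun Q y hy hN => ?_⟩
  have hy2 : 2 ≤ y := (le_max_left _ _).trans hy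
  have hyY : Y ≤ y := (Nat.le_ceil _).trans (by exact_mod_cast (le_max_right _ _).trans hy)
  have hlog := hY y hyY
  have hy1 : (1 : ℝ) < y := by exact_mod_cast (by omega : 1 < y)
  have hl0 : 0 < Real.log y := Real.log_pos hy1
  have h2 : ((primesIn Q y).ncard : ℝ) ≤ (oq Q y).card + 1 := by
    have := (cnt_pat (k := 0) Q (fun _ => 0) (fun i => i.elim0) (fun i => i.elim0) y).2.2.2
    exact_mod_cast this
  have h3 := mul_le_mul_of_nonneg_right h2 hl0.le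
  have h4 : 0 ≤ (y : ℝ) ^ ρ := by positivity
  have h5 : min κ 1 / 2 * (y : ℝ) ^ ρ ≤ κ / 2 * (y : ℝ) ^ ρ :=
    mul_le_mul_of_nonneg_right (by linarith [min_le_left κ 1]) h4
  linarith

open Classical in
/-- the range theorem -/
lemma range_main (hB : S_BAD3) (k : ℕ) (hk : 1 ≤ k) (A ρ τ κ η ε : ℝ) (hρ : 0 < ρ) (hρ1 : ρ ≤ 1)
    (hA : 1 < A * ρ) (hτρ : τ < ρ) (hκ : 0 < κ) (hη : 0 < η) (hε : 0 < ε) :
    ∃ c K : ℝ, 0 < c ∧ 0 < K ∧ ∀ (Q : Set ℕ) (X : ℕ) (D : Fin k → ℤ), 1 ≤ X → (∀ i, D i ≠ 0) →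
    (((Fintype.piFinset fun _ : Fin k => SP.sq X).filter (fun m : Fin k → ℕ =>
      (∀ i, (D i * (m i : ℤ)) % 4 = 0 ∨ (D i * (m i : ℤ)) % 4 = 1) ∧
      ∃ y : ℕ, Real.log X ^ A ≤ y ∧ (y : ℝ) ≤ (X : ℝ) ^ c ∧
        (∀ i, Real.log |(D i : ℝ)| ≤ (y : ℝ) ^ τ) ∧
        κ * (y : ℝ) ^ ρ ≤ (primesIn Q y).ncard * Real.log y ∧
        ∃ σ : Fin k → Bool, ¬ |2 ^ k * (cnt Q (fun i => D i * (m i : ℤ)) σ y : ℝ) -
          (primesIn Q y).ncard| ≤ η * (primesIn Q y).ncard)).card : ℝ) ≤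
      K * (X : ℝ) ^ (k - ρ + 1 / A + ε) := by
  have hA0 : 0 < A := by
    by_contra h
    push Not at h
    nlinarith
  have hA1 : 1 < A := by nlinarith
  set τ' : ℝ := max τ (1 / A) with hτ'
  have hτ'0 : 0 < τ' := lt_max_of_lt_right (by positivity)
  have hτ'ρ : τ' < ρ := by
    refine max_lt hτρ ?_
    rw [div_lt_iff₀ hA0]
    linarith
  set η₁ : ℝ := min η 1 with hη₁
  have hη₁0 : 0 < η₁ := lt_min hη one_pos
  have hη₁1 : η₁ ≤ 1 := min_le_right _ _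
  set κ₁ : ℝ := min κ 1 / 2 with hκ₁
  have hκ₁0 : 0 < κ₁ := by
    have := lt_min hκ one_pos
    positivity
  have hκ₁1 : κ₁ ≤ 1 := by
    have := min_le_right κ (1 : ℝ)
    rw [hκ₁]
    linarith
  have h2k : (1 : ℝ) ≤ 2 ^ (k + 1) := one_le_pow₀ (by norm_num)
  obtain ⟨y₀, hy₀2, hy₀⟩ := core k ρ τ' κ₁ η₁ hτ'ρ hτ'0 hκ₁0 hη₁0
  obtain ⟨y₁, hy₁2, hy₁⟩ := thick_oq ρ κ hρ hκ
  obtain ⟨c, K₀, hc, hK₀, hun⟩ := union_y hB k hk A ρ κ₁ (η₁ / 2 ^ (k + 1)) ε hρ hρ1 hA hκ₁0 hκ₁1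
    (by positivity) ((div_le_self hη₁0.le h2k).trans hη₁1) hε
  set y₂ : ℕ := max y₀ y₁ with hy₂
  set X₀ : ℝ := Real.exp ((y₂ : ℝ) ^ (1 / A)) with hX₀
  refine ⟨c, K₀ + X₀ ^ k, hc, by positivity, fun Q X D hX hD => ?_⟩
  have hX1 : (1 : ℝ) ≤ X := by exact_mod_cast hX
  have hX0 : (0 : ℝ) < X := by linarith
  have hk1 : (1 : ℝ) ≤ k := by exact_mod_cast hk
  have hbig : (1 : ℝ) ≤ (X : ℝ) ^ (k - ρ + 1 / A + ε) :=
    Real.one_le_rpow hX1 (by have : 0 < 1 / A := by positivity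
                             linarith)
  by_cases hXX : (X : ℝ) ≤ X₀
  · -- small `X`
    have h1 : (((Fintype.piFinset fun _ : Fin k => SP.sq X)).card : ℝ) ≤ (X : ℝ) ^ k := by
      rw [Fintype.card_piFinset, prod_const, card_univ, Fintype.card_fin]
      push_cast
      refine pow_le_pow_left₀ (by positivity) ?_ k
      have : (SP.sq X).card ≤ X := by
        unfold SP.sq
        refine (card_filter_le _ _).trans ?_
        simp
      exact_mod_cast this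
    have h2 : (X : ℝ) ^ k ≤ X₀ ^ k := pow_le_pow_left₀ hX0.le hXX k
    have h3 : X₀ ^ k ≤ X₀ ^ k * (X : ℝ) ^ (k - ρ + 1 / A + ε) :=
      le_mul_of_one_le_right (by positivity) hbig
    have h4 : 0 ≤ K₀ * (X : ℝ) ^ (k - ρ + 1 / A + ε) := by positivity
    refine le_trans (by exact_mod_cast card_filter_le _ _) (h1.trans (h2.trans (h3.trans ?_)))
    rw [add_mul]
    linarith
  push Not at hXX
  have hlogX : (y₂ : ℝ) ^ (1 / A) < Real.log X := by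
    rw [Real.lt_log_iff_exp_lt hX0]
    exact hXX
  have h4 : 0 ≤ X₀ ^ k * (X : ℝ) ^ (k - ρ + 1 / A + ε) := by positivity
  rw [add_mul]
  refine le_trans ?_ ((hun Q X D hX).trans (by linarith))
  refine Nat.cast_le.mpr (card_le_card ?_)
  intro m hm
  rw [mem_filter] at hm
  obtain ⟨hm1, hm4, y, hyX, hyc, hDy, hQ, σ, hσ⟩ := hm
  rw [mem_filter]
  refine ⟨hm1, y, ?_, hyc, ?_⟩
  · refine le_trans (Real.rpow_le_rpow ?_ (div_le_self (Real.log_nonneg hX1) hA1.le) hA0.le) hyX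
    exact div_nonneg (Real.log_nonneg hX1) hA0.le
  have hyy : y₂ ≤ y := by
    have h1 : (y₂ : ℝ) ≤ y := by
      calc (y₂ : ℝ) = ((y₂ : ℝ) ^ (1 / A)) ^ A := by
            rw [← Real.rpow_mul (Nat.cast_nonneg _), one_div, inv_mul_cancel₀ hA0.ne',
              Real.rpow_one]
        _ ≤ Real.log X ^ A := Real.rpow_le_rpow (by positivity) hlogX.le hA0.le
        _ ≤ y := hyX
    exact_mod_cast h1
  have hQ' := hy₁ Q y ((le_max_right _ _).trans hyy) hQ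
  refine ⟨hQ', ?_⟩
  by_contra hno
  push Not at hno
  have hy1 : (1 : ℝ) ≤ y := by
    have : 1 ≤ y := by
      have := (le_max_left y₀ y₁).trans hyy
      omega
    exact_mod_cast this
  have hm' : ∀ i, 1 ≤ m i ∧ m i ≤ X := by
    intro i
    have := Fintype.mem_piFinset.mp hm1 i
    unfold SP.sq at this
    rw [mem_filter, mem_Icc] at this
    exact this.1
  have hlog : ∀ i, Real.log |((D i * (m i : ℤ) : ℤ) : ℝ)| ≤ 2 * (y : ℝ) ^ τ' := by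
    intro i
    have h1 : (1 : ℝ) ≤ m i := by exact_mod_cast (hm' i).1
    have h2 : (m i : ℝ) ≤ X := by exact_mod_cast (hm' i).2
    have h3 : (0 : ℝ) < |(D i : ℝ)| := abs_pos.mpr (by exact_mod_cast hD i)
    push_cast
    rw [abs_mul, Nat.abs_cast, Real.log_mul h3.ne' (by linarith)]
    have h4 : Real.log (m i) ≤ Real.log X := Real.log_le_log (by linarith) h2
    have h5 : Real.log X ≤ (y : ℝ) ^ (1 / A) := by
      calc Real.log X = (Real.log X ^ A) ^ (1 / A) := by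
            rw [← Real.rpow_mul (Real.log_nonneg hX1), mul_one_div_cancel hA0.ne', Real.rpow_one]
        _ ≤ (y : ℝ) ^ (1 / A) := Real.rpow_le_rpow
            (Real.rpow_nonneg (Real.log_nonneg hX1) _) hyX (by positivity)
    have h6 : (y : ℝ) ^ (1 / A) ≤ (y : ℝ) ^ τ' :=
      Real.rpow_le_rpow_of_exponent_le hy1 (le_max_right _ _)
    have h7 : (y : ℝ) ^ τ ≤ (y : ℝ) ^ τ' :=
      Real.rpow_le_rpow_of_exponent_le hy1 (le_max_left _ _)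
    linarith [hDy i]
  have := hy₀ Q y ((le_max_left _ _).trans hyy) hQ' (fun i => D i * (m i : ℤ))
    (fun i => D i * (m i : ℤ)) hm4
    (fun i => mul_ne_zero (hD i) (by have := (hm' i).1
                                     exact_mod_cast (by omega : m i ≠ 0)))
    (fun p _ i => rfl) hlog (fun S hS => not_le.mpr (hno S hS)) σ
  exact hσ (this.trans (mul_le_mul_of_nonneg_right (min_le_left _ _) (Nat.cast_nonneg _)))

end Pool.Agent.H249_JS
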