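import Pool.Agent.H249_JS.E

set_option autoImplicit false

/-! # Joint splitting types: the range theorem with the sharper lower end -/

namespace Pool.Agent.H249_JS

open Finset Pool.Agent.Y549 Pool.Agent.Y549.SP

lemma pow_dom (A s t : ℝ) (hst : s < t) : ∃ y₃ : ℕ, 2 ≤ y₃ ∧ ∀ y : ℕ, y₃ ≤ y →
    A * (y : ℝ) ^ s ≤ (y : ℝ) ^ t := by
  have h1 : ∀ᶠ y : ℝ in Filter.atTop, A ≤ y ^ (t - s) :=
    (tendsto_rpow_atTop (by linarith : 0 < t - s)).eventually (Filter.eventually_ge_atTop A)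
  obtain ⟨Y, hY⟩ := Filter.eventually_atTop.mp h1
  refine ⟨max 2 ⌈Y⌉₊, le_max_left _ _, fun y hy => ?_⟩
  have hy2 : 2 ≤ y := (le_max_left _ _).trans hy
  have hyY : Y ≤ y := (Nat.le_ceil _).trans (by exact_mod_cast (le_max_right _ _).trans hy)
  have hy0 : (0 : ℝ) < y := by exact_mod_cast (by omega : 0 < y)
  calc A * (y : ℝ) ^ s ≤ (y : ℝ) ^ (t - s) * (y : ℝ) ^ s :=
        mul_le_mul_of_nonneg_right (hY y hyY) (by positivity)
    _ = (y : ℝ) ^ t := by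
        rw [← Real.rpow_add hy0]
        congr 1
        ring

open Classical in
/-- the range theorem -/
lemma range2 (hB : S_BAD3) (k : ℕ) (hk : 1 ≤ k) (A ρ τ κ η ε : ℝ) (hρ : 0 < ρ) (hρ1 : ρ ≤ 1)
    (hA : 1 < A * ρ) (hτρ : τ < ρ) (hκ : 0 < κ) (hη : 0 < η) (hε : 0 < ε) :
    ∃ c K : ℝ, 0 < c ∧ 0 < K ∧ ∀ (Q : Set ℕ) (X : ℕ) (D : Fin k → ℤ), 1 ≤ X → (∀ i, D i ≠ 0) →
    (((Fintype.piFinset fun _ : Fin k => SP.sq X).filter (fun m : Fin k → ℕ =>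
      (∀ i, (D i * (m i : ℤ)) % 4 = 0 ∨ (D i * (m i : ℤ)) % 4 = 1) ∧
      ∃ y : ℕ, (Real.log X / A) ^ A ≤ y ∧ (y : ℝ) ≤ (X : ℝ) ^ c ∧
        (∀ i, Real.log |(D i : ℝ)| ≤ (y : ℝ) ^ τ) ∧
        κ * (y : ℝ) ^ ρ ≤ (primesIn Q y).ncard * Real.log y ∧
        ∃ σ : Fin k → Bool, ¬ |2 ^ k * (cnt Q (fun i => D i * (m i : ℤ)) σ y : ℝ) -
          (primesIn Q y).ncard| ≤ η * (primesIn Q y).ncard)).card : ℝ) ≤
      K * (X : ℝ) ^ (k - ρ + 1 / A + ε) := by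
  have hA0 : 0 < A := by
    by_contra h
    push Not at h
    nlinarith
  have hA1 : 1 < A := by nlinarith
  set τ₁ : ℝ := max τ (1 / A) with hτ₁
  have hτ₁0 : 0 < τ₁ := lt_max_of_lt_right (by positivity)
  have hτ₁ρ : τ₁ < ρ := by
    refine max_lt hτρ ?_
    rw [div_lt_iff₀ hA0]
    linarith
  obtain ⟨τ', hτ'1, hτ'2⟩ := exists_between hτ₁ρ
  have hτ'0 : 0 < τ' := hτ₁0.trans hτ'1
  set η₁ : ℝ := min η 1 with hη₁
  have hη₁0 : 0 < η₁ := lt_min hη one_pos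
  have hη₁1 : η₁ ≤ 1 := min_le_right _ _
  set κ₁ : ℝ := min κ 1 / 2 with hκ₁
  have hκ₁0 : 0 < κ₁ := by
    have := lt_min hκ one_pos
    positivity
  have hκ₁1 : κ₁ ≤ 1 := by
    have := min_le_right κ (1 : ℝ)
    rw [hκ₁]
    linarith
  have h2k : (1 : ℝ) ≤ 2 ^ (k + 1) := one_le_pow₀ (by norm_num)
  obtain ⟨y₀, hy₀2, hy₀⟩ := core k ρ τ' κ₁ η₁ hτ'2 hτ'0 hκ₁0 hη₁0
  obtain ⟨y₁, hy₁2, hy₁⟩ := thick_oq ρ κ hρ hκ
  obtain ⟨y₃, hy₃2, hy₃⟩ := pow_dom A (1 / A) τ' ((le_max_right _ _).trans_lt hτ'1)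
  obtain ⟨c, K₀, hc, hK₀, hun⟩ := union_y hB k hk A ρ κ₁ (η₁ / 2 ^ (k + 1)) ε hρ hρ1 hA hκ₁0 hκ₁1
    (by positivity) ((div_le_self hη₁0.le h2k).trans hη₁1) hε
  set y₂ : ℕ := max (max y₀ y₁) y₃ with hy₂
  set X₀ : ℝ := Real.exp (A * (y₂ : ℝ) ^ (1 / A)) with hX₀
  refine ⟨c, K₀ + X₀ ^ k, hc, by positivity, fun Q X D hX hD => ?_⟩
  have hX1 : (1 : ℝ) ≤ X := by exact_mod_cast hX
  have hX0 : (0 : ℝ) < X := by linarith
  have hk1 : (1 : ℝ) ≤ k := by exact_mod_cast hk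
  have hbig : (1 : ℝ) ≤ (X : ℝ) ^ (k - ρ + 1 / A + ε) :=
    Real.one_le_rpow hX1 (by have : 0 < 1 / A := by positivity
                             linarith)
  by_cases hXX : (X : ℝ) ≤ X₀
  · -- small `X`
    have h1 : (((Fintype.piFinset fun _ : Fin k => SP.sq X)).card : ℝ) ≤ (X : ℝ) ^ k := by
      rw [Fintype.card_piFinset, prod_const, card_univ, Fintype.card_fin]
      push_cast
      refine pow_le_pow_left₀ (by positivity) ?_ k
      have : (SP.sq X).card ≤ X := by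
        unfold SP.sq
        refine (card_filter_le _ _).trans ?_
        simp
      exact_mod_cast this
    have h2 : (X : ℝ) ^ k ≤ X₀ ^ k := pow_le_pow_left₀ hX0.le hXX k
    have h3 : X₀ ^ k ≤ X₀ ^ k * (X : ℝ) ^ (k - ρ + 1 / A + ε) :=
      le_mul_of_one_le_right (by positivity) hbig
    have h4 : 0 ≤ K₀ * (X : ℝ) ^ (k - ρ + 1 / A + ε) := by positivity
    refine le_trans (by exact_mod_cast card_filter_le _ _) (h1.trans (h2.trans (h3.trans ?_)))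
    rw [add_mul]
    linarith
  push Not at hXX
  have hlogX : A * (y₂ : ℝ) ^ (1 / A) < Real.log X := by
    rw [Real.lt_log_iff_exp_lt hX0]
    exact hXX
  have hlogX' : (y₂ : ℝ) ^ (1 / A) < Real.log X / A := by
    rw [lt_div_iff₀ hA0]
    linarith
  have h4 : 0 ≤ X₀ ^ k * (X : ℝ) ^ (k - ρ + 1 / A + ε) := by positivity
  rw [add_mul]
  refine le_trans ?_ ((hun Q X D hX).trans (by linarith))
  refine Nat.cast_le.mpr (card_le_card ?_)
  intro m hm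
  rw [mem_filter] at hm
  obtain ⟨hm1, hm4, y, hyX, hyc, hDy, hQ, σ, hσ⟩ := hm
  rw [mem_filter]
  refine ⟨hm1, y, hyX, hyc, ?_⟩
  have hyy : y₂ ≤ y := by
    have h1 : (y₂ : ℝ) ≤ y := by
      calc (y₂ : ℝ) = ((y₂ : ℝ) ^ (1 / A)) ^ A := by
            rw [← Real.rpow_mul (Nat.cast_nonneg _), one_div, inv_mul_cancel₀ hA0.ne',
              Real.rpow_one]
        _ ≤ (Real.log X / A) ^ A := Real.rpow_le_rpow (by positivity) hlogX'.le hA0.le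
        _ ≤ y := hyX
    exact_mod_cast h1
  have hyy0 : y₀ ≤ y := ((le_max_left _ _).trans (le_max_left _ _)).trans hyy
  have hyy1 : y₁ ≤ y := ((le_max_right _ _).trans (le_max_left _ _)).trans hyy
  have hyy3 : y₃ ≤ y := (le_max_right _ _).trans hyy
  have hQ' := hy₁ Q y hyy1 hQ
  refine ⟨hQ', ?_⟩
  by_contra hno
  push Not at hno
  have hy1 : (1 : ℝ) ≤ y := by exact_mod_cast (by omega : 1 ≤ y)
  have hm' : ∀ i, 1 ≤ m i ∧ m i ≤ X := by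
    intro i
    have := Fintype.mem_piFinset.mp hm1 i
    unfold SP.sq at this
    rw [mem_filter, mem_Icc] at this
    exact this.1
  have hlog : ∀ i, Real.log |((D i * (m i : ℤ) : ℤ) : ℝ)| ≤ 2 * (y : ℝ) ^ τ' := by
    intro i
    have h1 : (1 : ℝ) ≤ m i := by exact_mod_cast (hm' i).1
    have h2 : (m i : ℝ) ≤ X := by exact_mod_cast (hm' i).2
    have h3 : (0 : ℝ) < |(D i : ℝ)| := abs_pos.mpr (by exact_mod_cast hD i)
    push_cast
    rw [abs_mul, Nat.abs_cast, Real.log_mul h3.ne' (by linarith)]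
    have h4 : Real.log (m i) ≤ Real.log X := Real.log_le_log (by linarith) h2
    have h0 : 0 ≤ Real.log X / A := div_nonneg (Real.log_nonneg hX1) hA0.le
    have h5 : Real.log X / A ≤ (y : ℝ) ^ (1 / A) := by
      calc Real.log X / A = ((Real.log X / A) ^ A) ^ (1 / A) := by
            rw [← Real.rpow_mul h0, mul_one_div_cancel hA0.ne', Real.rpow_one]
        _ ≤ (y : ℝ) ^ (1 / A) := Real.rpow_le_rpow
            (Real.rpow_nonneg h0 _) hyX (by positivity)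
    have h5' : Real.log X ≤ A * (y : ℝ) ^ (1 / A) := by
      rw [div_le_iff₀ hA0] at h5
      linarith
    have h6 := hy₃ y hyy3
    have h7 : (y : ℝ) ^ τ ≤ (y : ℝ) ^ τ' :=
      Real.rpow_le_rpow_of_exponent_le hy1 ((le_max_left _ _).trans hτ'1.le)
    linarith [hDy i]
  have := hy₀ Q y hyy0 hQ' (fun i => D i * (m i : ℤ))
    (fun i => D i * (m i : ℤ)) hm4
    (fun i => mul_ne_zero (hD i) (by have := (hm' i).1
                                     exact_mod_cast (by omega : m i ≠ 0)))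
    (fun p _ i => rfl) hlog (fun S hS => not_le.mpr (hno S hS)) σ
  exact hσ (this.trans (mul_le_mul_of_nonneg_right (min_le_left _ _) (Nat.cast_nonneg _)))

lemma set1' (hB : S_BAD3) (k : ℕ) (hk : 1 ≤ k) (A ρ τ κ η ε : ℝ) (hρ : 0 < ρ) (hρ1 : ρ ≤ 1)
    (hA : 1 < A * ρ) (hτρ : τ < ρ) (hκ : 0 < κ) (hη : 0 < η) (hε : 0 < ε) :
    ∃ c K : ℝ, 0 < c ∧ 0 < K ∧ ∀ (Q : Set ℕ) (D : Fin k → ℤ) (X : ℕ), (∀ i, D i ≠ 0) → 1 ≤ X →
      ({m : Fin k → ℕ | (∀ i, m i ≤ X ∧ Squarefree (m i) ∧ NegFund (D i * (m i : ℤ))) ∧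
        ∃ y : ℕ, (Real.log X / A) ^ A ≤ y ∧ (y : ℝ) ≤ (X : ℝ) ^ c ∧
          (∀ i, Real.log |(D i : ℝ)| ≤ (y : ℝ) ^ τ) ∧
          κ * (y : ℝ) ^ ρ ≤ (primesIn Q y).ncard * Real.log y ∧
          ¬ Balanced (primesIn Q y) (fun i => D i * (m i : ℤ)) η}.ncard : ℝ) ≤
        K * (X : ℝ) ^ (k - ρ + 1 / A + ε) := by
  classical
  obtain ⟨c, K, hc, hK, h⟩ := range2 hB k hk A ρ τ κ η ε hρ hρ1 hA hτρ hκ hη hε
  refine ⟨c, K, hc, hK, fun Q D X hD hX => le_trans ?_ (h Q X D hX hD)⟩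
  rw [← Set.ncard_coe_finset]
  refine Nat.cast_le.mpr (Set.ncard_le_ncard ?_ (Finset.finite_toSet _))
  rintro m ⟨h1, y, h2, h3, h4, h5, h6⟩
  rw [mem_coe, mem_filter, Fintype.mem_piFinset]
  refine ⟨fun i => ?_, fun i => ?_, y, h2, h3, h4, h5, ?_⟩
  · unfold SP.sq
    rw [mem_filter, mem_Icc]
    exact ⟨⟨Nat.one_le_iff_ne_zero.mpr (h1 i).2.1.ne_zero, (h1 i).1⟩, (h1 i).2.1⟩
  · obtain ⟨_, h | ⟨n, h, _⟩⟩ := (h1 i).2.2
    · exact Or.inr h.1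
    · exact Or.inl (by omega)
  · rw [balanced_iff] at h6
    push Not at h6
    obtain ⟨σ, hσ⟩ := h6
    exact ⟨σ, not_le.mpr hσ⟩

end Pool.Agent.H249_JS
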