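import Pool.Agent.H249_JS.C

set_option autoImplicit false

/-! # Joint splitting types: all discriminants and the threshold -/

namespace Pool.Agent.H249_JS

open Finset Pool.Agent.Y549 Pool.Agent.Y549.SP

/-- the primes of `Q` below `t` -/
def below (Q : Set ℕ) (t : ℝ) : Set ℕ := {p | p.Prime ∧ p ∈ Q ∧ (p : ℝ) < t}

/-- the primes of `P` have the `2 ^ k` types equally often -/
def Balanced {k : ℕ} (P : Set ℕ) (d : Fin k → ℤ) (η : ℝ) : Prop := ∀ σ : Fin k → Bool,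
  |2 ^ k * ({p | p ∈ P ∧ HasType d σ p}.ncard : ℝ) - P.ncard| ≤ η * P.ncard

/-- the largest absolute value -/
def top {k : ℕ} (d : Fin k → ℤ) : ℕ := univ.sup fun i => (d i).natAbs

/-- the threshold -/
noncomputable def thr {k : ℕ} (d : Fin k → ℤ) : ℝ :=
  Real.log (top d) ^ 2 * Real.log (Real.log (top d)) ^ 2

lemma balanced_iff {k : ℕ} (Q : Set ℕ) (d : Fin k → ℤ) (η : ℝ) (y : ℕ) :
    Balanced (primesIn Q y) d η ↔ ∀ σ : Fin k → Bool,
      |2 ^ k * (cnt Q d σ y : ℝ) - (primesIn Q y).ncard| ≤ η * (primesIn Q y).ncard := by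
  unfold Balanced
  refine forall_congr' fun σ => ?_
  have : {p | p ∈ primesIn Q y ∧ HasType d σ p} =
      {p : ℕ | p.Prime ∧ p ≤ y ∧ p ∈ Q ∧ HasType d σ p} := by
    ext p
    simp only [primesIn, Set.mem_ofPred_eq]
    tauto
  rw [this]
  rfl

lemma below_eq (Q : Set ℕ) (t : ℝ) (h : 0 < t) (y : ℕ) (hy : y = ⌈t⌉₊ - 1) :
    (y : ℝ) < t ∧ t ≤ y + 1 ∧ primesIn Q y = below Q t := by
  have hc1 : 1 ≤ ⌈t⌉₊ := Nat.one_le_ceil_iff.mpr h
  have hy1 : ∀ p : ℕ, p ≤ y ↔ (p : ℝ) < t := by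
    intro p
    rw [← Nat.lt_ceil, hy]
    omega
  refine ⟨(hy1 y).mp le_rfl, ?_, ?_⟩
  · have h1 : ¬ (y + 1 ≤ y) := by omega
    rw [hy1] at h1
    push_cast at h1
    exact not_lt.mp h1
  · ext p
    constructor
    · rintro ⟨a1, a2, a3⟩
      exact ⟨a1, a3, (hy1 p).mp a2⟩
    · rintro ⟨a1, a2, a3⟩
      exact ⟨a1, (hy1 p).mpr a3, a2⟩

lemma disc_form (d : ℤ) (hd : NegFund d) (X : ℕ) (hX : |d| ≤ X) :
    ∃ (D : ℤ) (m : ℕ), (D = -1 ∨ D = -4) ∧ m ∈ SP.sq X ∧ d = D * m := by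
  have hm : ∀ n : ℤ, n < 0 → Squarefree n → |n| ≤ X → n.natAbs ∈ SP.sq X := by
    intro n hn hs hX
    unfold SP.sq
    rw [mem_filter, mem_Icc]
    rw [abs_of_neg hn] at hX
    refine ⟨⟨by omega, by omega⟩, ?_⟩
    exact Int.squarefree_natAbs.mpr hs
  obtain ⟨h0, h | ⟨m, h1, h2, h3⟩⟩ := hd
  · exact ⟨-1, d.natAbs, Or.inl rfl, hm d h0 h.2 hX, by omega⟩
  · have : |m| ≤ X := by
      rw [abs_of_neg (by omega)] at hX ⊢
      omega
    exact ⟨-4, m.natAbs, Or.inr rfl, hm m (by omega) h3 this, by omega⟩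

lemma box_card (k N : ℕ) : (Fintype.piFinset fun _ : Fin k => Icc (-(N : ℤ)) N).card =
    (2 * N + 1) ^ k := by
  rw [Fintype.card_piFinset, prod_const, card_univ, Fintype.card_fin, Int.card_Icc]
  congr 1
  omega

/-- few tuples of discriminants are bad -/
lemma disc_main (hB : S_BAD3) (k : ℕ) (hk : 1 ≤ k) (A ρ κ η ε : ℝ) (hρ : 0 < ρ) (hρ1 : ρ ≤ 1)
    (hA : 1 < A * ρ) (hκ : 0 < κ) (hη : 0 < η) (hε : 0 < ε) :
    ∃ c K : ℝ, 0 < c ∧ 0 < K ∧ ∀ (Q : Set ℕ) (X : ℕ), 1 ≤ X → ∀ T : Finset (Fin k → ℤ),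
      (∀ d ∈ T, (∀ i, NegFund (d i) ∧ |d i| ≤ X) ∧
        ∃ y : ℕ, Real.log X ^ A ≤ y ∧ (y : ℝ) ≤ (X : ℝ) ^ c ∧
          κ * (y : ℝ) ^ ρ ≤ (primesIn Q y).ncard * Real.log y ∧
          ¬ Balanced (primesIn Q y) d η) →
      (T.card : ℝ) ≤ K * (X : ℝ) ^ (k - ρ + 1 / A + ε) := by
  classical
  have hA0 : 0 < A := by
    by_contra h
    push Not at h
    nlinarith
  have hAρ : 1 / A < ρ := by
    rw [div_lt_iff₀ hA0]
    linarith
  obtain ⟨c, K, hc, hK, h⟩ := range_main hB k hk A ρ (1 / A) κ η ε hρ hρ1 hA hAρ hκ hη hε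
  refine ⟨c, 2 ^ k * K + 9 ^ k, hc, by positivity, fun Q X hX T hT => ?_⟩
  have hX1 : (1 : ℝ) ≤ X := by exact_mod_cast hX
  have hX0 : (0 : ℝ) < X := by linarith
  have hk1 : (1 : ℝ) ≤ k := by exact_mod_cast hk
  have hbig : (1 : ℝ) ≤ (X : ℝ) ^ (k - ρ + 1 / A + ε) :=
    Real.one_le_rpow hX1 (by have : 0 < 1 / A := by positivity
                             linarith)
  by_cases hX4 : X < 4
  · have h1 : T ⊆ Fintype.piFinset fun _ : Fin k => Icc (-((4 : ℕ) : ℤ)) (4 : ℕ) := by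
      intro d hd
      rw [Fintype.mem_piFinset]
      intro i
      have := ((hT d hd).1 i).2
      rw [mem_Icc]
      rw [abs_le] at this
      constructor <;> omega
    have h2 := card_le_card h1
    rw [box_card] at h2
    have h3 : (T.card : ℝ) ≤ 9 ^ k := by exact_mod_cast h2
    have h4 : (9 : ℝ) ^ k ≤ 9 ^ k * (X : ℝ) ^ (k - ρ + 1 / A + ε) :=
      le_mul_of_one_le_right (by positivity) hbig
    have h5 : 0 ≤ 2 ^ k * K * (X : ℝ) ^ (k - ρ + 1 / A + ε) := by positivity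
    rw [add_mul]
    linarith
  have hX4' : (4 : ℝ) ≤ X := by exact_mod_cast not_lt.mp hX4
  set F : (Fin k → ℤ) → Finset (Fin k → ℕ) := fun D =>
    ((Fintype.piFinset fun _ : Fin k => SP.sq X).filter (fun m : Fin k → ℕ =>
      (∀ i, (D i * (m i : ℤ)) % 4 = 0 ∨ (D i * (m i : ℤ)) % 4 = 1) ∧
      ∃ y : ℕ, Real.log X ^ A ≤ y ∧ (y : ℝ) ≤ (X : ℝ) ^ c ∧
        (∀ i, Real.log |(D i : ℝ)| ≤ (y : ℝ) ^ (1 / A)) ∧
        κ * (y : ℝ) ^ ρ ≤ (primesIn Q y).ncard * Real.log y ∧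
        ∃ σ : Fin k → Bool, ¬ |2 ^ k * (cnt Q (fun i => D i * (m i : ℤ)) σ y : ℝ) -
          (primesIn Q y).ncard| ≤ η * (primesIn Q y).ncard)) with hF
  set U : Finset (Fin k → ℤ) := Fintype.piFinset fun _ : Fin k => ({-1, -4} : Finset ℤ) with hU
  have hUc : U.card = 2 ^ k := by
    rw [hU, Fintype.card_piFinset, prod_const, card_univ, Fintype.card_fin]
    rfl
  have hsub : T ⊆ U.biUnion (fun D => (F D).image (fun m i => D i * (m i : ℤ))) := by
    intro d hd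
    obtain ⟨h1, y, h2, h3, h4, h5⟩ := hT d hd
    have h6 : ∀ i, ∃ (D : ℤ) (m : ℕ), (D = -1 ∨ D = -4) ∧ m ∈ SP.sq X ∧ d i = D * m :=
      fun i => disc_form (d i) (h1 i).1 X (h1 i).2
    choose D m h7 h8 h9 using h6
    have hdm : d = fun i => D i * (m i : ℤ) := funext h9
    rw [mem_biUnion]
    refine ⟨D, ?_, ?_⟩
    · rw [hU, Fintype.mem_piFinset]
      intro i
      rw [mem_insert, mem_singleton]
      exact h7 i
    · rw [mem_image]
      refine ⟨m, ?_, hdm.symm⟩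
      rw [hF, mem_filter, Fintype.mem_piFinset]
      refine ⟨h8, fun i => ?_, y, h2, h3, fun i => ?_, h4, ?_⟩
      · rw [← h9 i]
        obtain ⟨_, h | ⟨n, h, _⟩⟩ := (h1 i).1
        · exact Or.inr h.1
        · exact Or.inl (by omega)
      · have h10 : Real.log |(D i : ℝ)| ≤ Real.log X := by
          rcases h7 i with h | h <;> rw [h]
          · push_cast
            rw [abs_neg, abs_one, Real.log_one]
            exact Real.log_nonneg hX1
          · push_cast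
            rw [abs_neg]
            refine Real.log_le_log (by norm_num) ?_
            rw [abs_of_pos (by norm_num)]
            exact hX4'
        refine h10.trans ?_
        calc Real.log X = (Real.log X ^ A) ^ (1 / A) := by
              rw [← Real.rpow_mul (Real.log_nonneg hX1), mul_one_div_cancel hA0.ne', Real.rpow_one]
          _ ≤ (y : ℝ) ^ (1 / A) := Real.rpow_le_rpow
              (Real.rpow_nonneg (Real.log_nonneg hX1) _) h2 (by positivity)
      · rw [balanced_iff] at h5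
        push Not at h5
        obtain ⟨σ, hσ⟩ := h5
        exact ⟨σ, by rw [← hdm]; exact not_le.mpr hσ⟩
  have hFc : ∀ D ∈ U, ((F D).card : ℝ) ≤ K * (X : ℝ) ^ (k - ρ + 1 / A + ε) := by
    intro D hD
    refine h Q X D hX fun i => ?_
    rw [hU, Fintype.mem_piFinset] at hD
    have := hD i
    rw [mem_insert, mem_singleton] at this
    omega
  calc (T.card : ℝ) ≤ ((∑ D ∈ U, (F D).card : ℕ) : ℝ) := by
        refine Nat.cast_le.mpr ((card_le_card hsub).trans (card_biUnion_le.trans ?_))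
        exact sum_le_sum fun D _ => card_image_le
    _ ≤ ∑ D ∈ U, K * (X : ℝ) ^ (k - ρ + 1 / A + ε) := by
        rw [Nat.cast_sum]
        exact sum_le_sum hFc
    _ = 2 ^ k * K * (X : ℝ) ^ (k - ρ + 1 / A + ε) := by
        rw [sum_const, nsmul_eq_mul, hUc]
        push_cast
        ring
    _ ≤ _ := by
        have : 0 ≤ 9 ^ k * (X : ℝ) ^ (k - ρ + 1 / A + ε) := by positivity
        rw [add_mul]
        linarith

end Pool.Agent.H249_JS
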