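import Pool.Agent.H249_JS.E
import Pool.Agent.Y549.SP.TW

set_option autoImplicit false

/-! # Joint splitting types: the sequential choice of the multipliers -/

namespace Pool.Agent.H249_JS

open Finset Pool.Agent.Y549 Pool.Agent.Y549.SP

open Classical in
/-- sequential choice -/
lemma choose_tuple {k : ℕ} (bad : ℤ → Prop) (D : Fin k → ℤ) (X : ℕ) (T : Fin k → Finset ℕ) (B : ℕ)
    (hB : ∀ a : ℤ, ((SP.sq X).filter (fun n : ℕ => bad (a * (n : ℤ)))).card ≤ B)
    (hT : ∀ i, T i ⊆ SP.sq X) (hc : ∀ i, 2 ^ k * B < (T i).card) :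
    ∃ m : Fin k → ℕ, (∀ i, m i ∈ T i) ∧ ∀ S : Finset (Fin k), S.Nonempty →
      ¬ bad (pr (fun i => D i * (m i : ℤ)) S) := by
  suffices h : ∀ J : Finset (Fin k), ∃ m : Fin k → ℕ, (∀ i, m i ∈ T i) ∧
      ∀ S : Finset (Fin k), S ⊆ J → S.Nonempty → ¬ bad (pr (fun i => D i * (m i : ℤ)) S) by
    obtain ⟨m, h1, h2⟩ := h univ
    exact ⟨m, h1, fun S hS => h2 S (subset_univ _) hS⟩
  intro J
  induction J using Finset.induction_on with
  | empty =>
    have h1 : ∀ i, ∃ n, n ∈ T i := fun i => by
      have : 0 < (T i).card := lt_of_le_of_lt (Nat.zero_le _) (hc i)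
      exact card_pos.mp this
    choose m hm using h1
    refine ⟨m, hm, fun S hS hne => ?_⟩
    rw [subset_empty] at hS
    rw [hS] at hne
    exact absurd hne (by simp)
  | insert j J hj ih =>
    obtain ⟨m, hm, hmJ⟩ := ih
    set U : Finset ℕ := J.powerset.biUnion (fun S => (SP.sq X).filter
      (fun n : ℕ => bad ((D j * pr (fun i => D i * (m i : ℤ)) S) * (n : ℤ)))) with hU
    have hUc : U.card ≤ 2 ^ k * B := by
      calc U.card ≤ ∑ S ∈ J.powerset, ((SP.sq X).filter
            (fun n : ℕ => bad ((D j * pr (fun i => D i * (m i : ℤ)) S) * (n : ℤ)))).card :=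
            card_biUnion_le
        _ ≤ ∑ _S ∈ J.powerset, B := sum_le_sum fun S _ => hB _
        _ = 2 ^ J.card * B := by rw [sum_const, card_powerset, smul_eq_mul]
        _ ≤ 2 ^ k * B := by
            refine Nat.mul_le_mul_right _ (Nat.pow_le_pow_right (by norm_num) ?_)
            exact (card_le_univ J).trans (by rw [Fintype.card_fin])
    obtain ⟨n, hn1, hn2⟩ : ∃ n ∈ T j, n ∉ U := by
      by_contra hno
      push Not at hno
      have := card_le_card (show T j ⊆ U from fun n hn => hno n hn)
      have := hc j
      omega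
    refine ⟨Function.update m j n, ?_, ?_⟩
    · intro i
      by_cases hi : i = j
      · subst hi
        rw [Function.update_self]
        exact hn1
      · rw [Function.update_of_ne hi]
        exact hm i
    · intro S hS hne
      have hpr : ∀ S' : Finset (Fin k), j ∉ S' →
          pr (fun i => D i * ((Function.update m j n) i : ℤ)) S' =
            pr (fun i => D i * (m i : ℤ)) S' := by
        intro S' hj'
        unfold pr
        refine prod_congr rfl fun i hi => ?_
        have hij : i ≠ j := fun h => hj' (h ▸ hi)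
        show D i * ((Function.update m j n) i : ℤ) = D i * (m i : ℤ)
        rw [Function.update_of_ne hij]
      by_cases hjS : j ∈ S
      · intro hbad
        apply hn2
        rw [hU, mem_biUnion]
        refine ⟨S.erase j, ?_, ?_⟩
        · rw [mem_powerset]
          intro i hi
          rw [mem_erase] at hi
          have := hS hi.2
          rw [mem_insert] at this
          exact this.resolve_left hi.1
        · rw [mem_filter]
          refine ⟨hT j hn1, ?_⟩
          have e1 : pr (fun i => D i * ((Function.update m j n) i : ℤ)) S =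
              (D j * pr (fun i => D i * (m i : ℤ)) (S.erase j)) * (n : ℤ) := by
            rw [← hpr (S.erase j) (notMem_erase j S)]
            unfold pr
            rw [← mul_prod_erase S _ hjS, Function.update_self]
            ring
          rwa [e1] at hbad
      · rw [hpr S hjS]
        refine hmJ S ?_ hne
        intro i hi
        have := hS hi
        rw [mem_insert] at this
        exact this.resolve_left (fun h => hjS (h ▸ hi))

lemma top_mul_ge {k : ℕ} (D : Fin k → ℤ) (m : Fin k → ℕ) (hm : ∀ i, 1 ≤ m i) :
    top D ≤ top (fun i => D i * (m i : ℤ)) := by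
  unfold top
  refine Finset.sup_le fun i _ => ?_
  refine le_trans ?_ (Finset.le_sup (f := fun i => (D i * (m i : ℤ)).natAbs) (mem_univ i))
  rw [Int.natAbs_mul, Int.natAbs_natCast]
  exact Nat.le_mul_of_pos_right _ (hm i)

lemma top_mul_le {k : ℕ} (D : Fin k → ℤ) (m : Fin k → ℕ) (X : ℕ) (hm : ∀ i, m i ≤ X) :
    top (fun i => D i * (m i : ℤ)) ≤ top D * X := by
  unfold top
  refine Finset.sup_le fun i _ => ?_
  rw [Int.natAbs_mul, Int.natAbs_natCast]
  exact Nat.mul_le_mul (Finset.le_sup (f := fun i => (D i).natAbs) (mem_univ i)) (hm i)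

end Pool.Agent.H249_JS
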