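import Pool.Agent.Y549.SP.MANY

set_option autoImplicit false

/-! # Joint splitting types: nearly all multipliers -/

namespace Pool.Agent.H249_JS

open Finset Pool.Agent.Y549 Pool.Agent.Y549.SP

lemma many_primes2 (β : ℝ) (hβ0 : 1 / 2 ≤ β) (hβ : β < 1) : ∀ᶠ n : ℕ in Filter.atTop,
    8 * ((n : ℝ) + 1) ^ β ≤ (Nat.primeCounting n : ℝ) := by
  have h1 : ∀ᶠ y : ℝ in Filter.atTop, Real.log y ≤ 1 / 64 * y ^ (1 - β) := by
    have h := (isLittleO_log_rpow_atTop (show (0 : ℝ) < 1 - β by linarith)).bound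
      (show (0 : ℝ) < 1 / 64 by norm_num)
    filter_upwards [h, Filter.eventually_ge_atTop 1] with y hy hy1
    rw [Real.norm_of_nonneg (Real.log_nonneg hy1), Real.norm_of_nonneg (by positivity)] at hy
    exact hy
  have h2 : Filter.Tendsto (fun n : ℕ => (n : ℝ) + 1) Filter.atTop Filter.atTop :=
    Filter.tendsto_atTop_add_const_right _ _ tendsto_natCast_atTop_atTop
  filter_upwards [h2.eventually h1, Filter.eventually_ge_atTop 16] with n hn hn16
  obtain ⟨y, hy⟩ : ∃ y : ℝ, y = (n : ℝ) + 1 := ⟨_, rfl⟩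
  rw [← hy] at hn ⊢
  have hn' : (16 : ℝ) ≤ n := by exact_mod_cast hn16
  have hy16 : 17 ≤ y := by linarith
  have hy0 : 0 < y := by linarith
  have hlogn : 0 < Real.log n := Real.log_pos (by linarith)
  have hp15 : 0 < y ^ (1 - β) := Real.rpow_pos_of_pos hy0 _
  have hle1 : y ^ (1 - β) ≤ y := by
    calc y ^ (1 - β) ≤ y ^ (1 : ℝ) :=
          Real.rpow_le_rpow_of_exponent_le (by linarith) (by linarith)
      _ = y := Real.rpow_one y
  have hlog2 := Real.log_two_gt_d9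
  have hnum : y / 2 ≤ n * Real.log 2 - Real.log ((n : ℝ) + 1) := by
    rw [← hy]
    have e1 : (n : ℝ) * 0.69 ≤ n * Real.log 2 :=
      mul_le_mul_of_nonneg_left (by linarith) (by linarith)
    linarith
  have hden : Real.log n ≤ 1 / 64 * y ^ (1 - β) :=
    (Real.log_le_log (by linarith) (by linarith)).trans hn
  have h3 := Chebyshev.pi_ge n
  refine le_trans ?_ h3
  rw [le_div_iff₀ hlogn]
  refine le_trans ?_ hnum
  have h4 : y ^ β * y ^ (1 - β) = y := by
    rw [← Real.rpow_add hy0]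
    have : β + (1 - β) = 1 := by ring
    rw [this, Real.rpow_one]
  have h5 : 0 < y ^ β := Real.rpow_pos_of_pos hy0 _
  calc 8 * y ^ β * Real.log n ≤ 8 * y ^ β * (1 / 64 * y ^ (1 - β)) :=
        mul_le_mul_of_nonneg_left hden (by positivity)
    _ = 1 / 8 * (y ^ β * y ^ (1 - β)) := by ring
    _ = 1 / 8 * y := by rw [h4]
    _ ≤ y / 2 := by linarith

/-- every discriminant has many twists which are discriminants -/
def Many (s : ℝ) : Prop := ∃ X₀ : ℕ, ∀ d : ℤ, NegFund d → ∀ X : ℕ, X₀ ≤ X →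
  Real.log |(d : ℝ)| ^ 4 ≤ X → ∃ T : Finset ℕ, (∀ m ∈ T, 1 ≤ m ∧ m ≤ X ∧ Squarefree m ∧
    NegFund (d * m)) ∧ (X : ℝ) ^ s ≤ T.card

theorem many2 (s : ℝ) (hs : s < 1) : Many s := by
  classical
  set β : ℝ := max s (1 / 2) with hβ
  have hβ1 : β < 1 := max_lt hs (by norm_num)
  have hβ0 : 1 / 2 ≤ β := le_max_right _ _
  have hsβ : s ≤ β := le_max_left _ _
  obtain ⟨N, hN⟩ := Filter.eventually_atTop.1 (many_primes2 β hβ0 hβ1)
  refine ⟨(N + 1) ^ 2, fun d hd X hX hlog => ?_⟩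
  set Z := Nat.sqrt X with hZ
  have hZN : N ≤ Z := by
    rw [hZ, Nat.le_sqrt']
    exact (Nat.pow_le_pow_left (Nat.le_succ N) 2).trans hX
  have hπ := hN Z hZN
  obtain ⟨y, hy⟩ : ∃ y : ℝ, y = (Z : ℝ) + 1 := ⟨_, rfl⟩
  rw [← hy] at hπ
  have hy1 : 1 ≤ y := by
    rw [hy]
    have : (0 : ℝ) ≤ Z := Nat.cast_nonneg _
    linarith
  have hXy : (X : ℝ) ≤ y ^ 2 := by
    have h1 : X ≤ (Z + 1) ^ 2 := (Nat.lt_succ_sqrt' X).le
    rw [hy]
    exact_mod_cast h1
  obtain ⟨n, hn⟩ : ∃ n : ℕ, n = d.natAbs := ⟨_, rfl⟩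
  have hn1 : 1 ≤ n := by
    rw [hn]
    have := hd.1
    omega
  have hdn : |(d : ℝ)| = n := by
    rw [hn, Nat.cast_natAbs, Int.cast_abs]
  rw [hdn] at hlog
  have hl0 : 0 ≤ Real.log n := Real.log_natCast_nonneg n
  -- the bound for the logarithm
  have hp12 : y ^ (1 / 2 : ℝ) ≤ y ^ β :=
    Real.rpow_le_rpow_of_exponent_le hy1 hβ0
  have hp1 : 1 ≤ y ^ β := Real.one_le_rpow hy1 (by linarith)
  have hlogy : Real.log n ≤ y ^ β := by
    refine le_trans ?_ hp12
    rw [← Real.sqrt_eq_rpow]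
    apply Real.le_sqrt_of_sq_le
    have h1 : (Real.log n ^ 2) ^ 2 ≤ y ^ 2 := by
      rw [← pow_mul]
      exact hlog.trans hXy
    exact (sq_le_sq₀ (sq_nonneg _) (by linarith)).1 h1
  have hω := MANY.omega_le n hn1
  -- the primes
  set S := (Nat.primesLE Z).filter (fun q => q ≠ 2 ∧ ¬ q ∣ n) with hS
  have hcard : (Nat.primeCounting Z : ℝ) ≤ S.card + (1 + n.primeFactors.card) := by
    have h1 : Nat.primesLE Z ⊆ S ∪ ({2} ∪ n.primeFactors) := by
      intro q hq
      rw [mem_union, mem_union, mem_singleton, Nat.mem_primeFactors]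
      by_cases h2 : q = 2
      · exact Or.inr (Or.inl h2)
      · by_cases h3 : q ∣ n
        · exact Or.inr (Or.inr ⟨Nat.prime_of_mem_primesLE hq, h3, by omega⟩)
        · left
          rw [hS, mem_filter]
          exact ⟨hq, h2, h3⟩
    have h2 := (card_le_card h1).trans ((card_union_le _ _).trans
      (Nat.add_le_add_left (card_union_le _ _) _))
    rw [Nat.primesLE_card_eq_primeCounting, card_singleton] at h2
    exact_mod_cast h2
  have hSmem : ∀ q ∈ S, q.Prime ∧ q ≤ Z ∧ q ≠ 2 ∧ ¬ q ∣ n := by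
    intro q hq
    rw [hS, mem_filter] at hq
    exact ⟨Nat.prime_of_mem_primesLE hq.1, Nat.le_of_mem_primesLE hq.1, hq.2⟩
  -- one of the two classes
  obtain ⟨r, hr, hcl⟩ : ∃ r : ℕ, (r = 1 ∨ r = 3) ∧
      S.card ≤ 2 * (S.filter fun q => q % 4 = r).card := by
    have h1 : S ⊆ S.filter (fun q => q % 4 = 1) ∪ S.filter (fun q => q % 4 = 3) := by
      intro q hq
      obtain ⟨h2, -, h3, -⟩ := hSmem q hq
      have h4 := h2.eq_two_or_odd
      rw [mem_union]
      have h5 : q % 4 = 1 ∨ q % 4 = 3 := by omega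
      rcases h5 with h5 | h5
      · exact Or.inl (mem_filter.2 ⟨hq, h5⟩)
      · exact Or.inr (mem_filter.2 ⟨hq, h5⟩)
    have h2 := (card_le_card h1).trans (card_union_le _ _)
    rcases le_total (S.filter fun q => q % 4 = 1).card (S.filter fun q => q % 4 = 3).card with h | h
    · exact ⟨3, Or.inr rfl, by omega⟩
    · exact ⟨1, Or.inl rfl, by omega⟩
  set S' := S.filter fun q => q % 4 = r with hS'
  have hS'mem : ∀ q ∈ S', q.Prime ∧ q ≤ Z ∧ ¬ q ∣ n ∧ q % 4 = r := by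
    intro q hq
    rw [hS', mem_filter] at hq
    obtain ⟨h1, h2, -, h3⟩ := hSmem q hq.1
    exact ⟨h1, h2, h3, hq.2⟩
  have hcl' : (S.card : ℝ) ≤ 2 * S'.card := by exact_mod_cast hcl
  have hN2 : 5 / 2 * y ^ β ≤ S'.card := by linarith
  refine ⟨(S'.powersetCard 2).image fun s => ∏ q ∈ s, q, ?_, ?_⟩
  · intro m hm
    obtain ⟨s, hs, rfl⟩ := mem_image.1 hm
    rw [mem_powersetCard, card_eq_two] at hs
    obtain ⟨hs1, p, q, hpq, rfl⟩ := hs
    obtain ⟨hp1', hp2, hp3, hp4⟩ := hS'mem p (hs1 (by simp))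
    obtain ⟨hq1, hq2, hq3, hq4⟩ := hS'mem q (hs1 (by simp))
    rw [prod_pair hpq]
    have hsq : Squarefree (p * q) := by
      rw [Nat.squarefree_mul ((Nat.coprime_primes hp1' hq1).2 hpq)]
      exact ⟨hp1'.squarefree, hq1.squarefree⟩
    refine ⟨Nat.mul_pos hp1'.pos hq1.pos, ?_, hsq, ?_⟩
    · exact (Nat.mul_le_mul hp2 hq2).trans (Nat.sqrt_le X)
    · refine MANY.twist hd hsq ?_ ?_
      · rw [Nat.mul_mod, hp4, hq4]
        rcases hr with rfl | rfl <;> rfl
      · rw [← hn]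
        exact Nat.Coprime.mul_right ((Nat.Prime.coprime_iff_not_dvd hp1').2 hp3).symm
          ((Nat.Prime.coprime_iff_not_dvd hq1).2 hq3).symm
  · rw [card_image_of_injOn, card_powersetCard]
    · have h1 : ((S'.card.choose 2 : ℕ) : ℝ) = S'.card * (S'.card - 1) / 2 := Nat.cast_choose_two ℝ _
      rw [h1]
      have hX1 : (1 : ℝ) ≤ X := by
        have : 1 ≤ X := le_trans (Nat.one_le_pow _ _ (Nat.succ_pos N)) hX
        exact_mod_cast this
      have h2 : (X : ℝ) ^ s ≤ (y ^ β) ^ 2 := by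
        calc (X : ℝ) ^ s ≤ (X : ℝ) ^ β := Real.rpow_le_rpow_of_exponent_le hX1 hsβ
          _ ≤ (y ^ 2) ^ β := Real.rpow_le_rpow (Nat.cast_nonneg _) hXy (by linarith)
          _ = (y ^ β) ^ 2 := by
              rw [← Real.rpow_natCast, ← Real.rpow_natCast, ← Real.rpow_mul (by linarith),
                ← Real.rpow_mul (by linarith), mul_comm]
      refine h2.trans ?_
      have h3 : (1 : ℝ) ≤ 3 / 2 * y ^ β := by linarith
      nlinarith
    · intro s hs s' hs' h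
      rw [mem_coe, mem_powersetCard] at hs hs'
      have e1 := Nat.primeFactors_prod (fun q hq => (hS'mem q (hs.1 hq)).1)
      have e2 := Nat.primeFactors_prod (fun q hq => (hS'mem q (hs'.1 hq)).1)
      simp only at h
      rw [← e1, ← e2, h]

end Pool.Agent.H249_JS
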