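import Pool.Agent.H249_JS.P
import Pool.Agent.H249_JS.C2

set_option autoImplicit false

/-! # Joint splitting types: the range theorem with a power saving -/

namespace Pool.Agent.H249_JS

open Finset Pool.Agent.Y549 Pool.Agent.Y549.SP

/-- the types are equidistributed if the sums are small -/
lemma core_pt (k : ℕ) (τ η : ℝ) (hη : 0 < η) (Q : Set ℕ) (y : ℕ)
    (h1 : 2 ^ k * (k * (2 * (2 * (y : ℝ) ^ τ))) + 2 ^ k + 1 ≤ η / 2 * (oq Q y).card)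
    (d a : Fin k → ℤ) (hd : ∀ i, d i % 4 = 0 ∨ d i % 4 = 1) (hd0 : ∀ i, d i ≠ 0)
    (hda : ∀ p ∈ oq Q y, ∀ i, jacobiSym (d i) p = jacobiSym (a i) p)
    (hlog : ∀ i, Real.log |(d i : ℝ)| ≤ 2 * (y : ℝ) ^ τ)
    (hS : ∀ S : Finset (Fin k), S.Nonempty → ¬ η / 2 ^ (k + 1) * (oq Q y).card ≤
        |((∑ p ∈ oq Q y, jacobiSym (pr a S) p : ℤ) : ℝ)|)
    (σ : Fin k → Bool) : |2 ^ k * (cnt Q d σ y : ℝ) - (primesIn Q y).ncard| ≤
        η * (primesIn Q y).ncard := by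
  obtain ⟨c1, c2, c3, c4⟩ := cnt_pat Q d hd σ y
  have hz := zer_le Q y d hd0 _ hlog
  have hpr := pat_real (oq Q y) a (sg σ) (sg_pm σ) (η / 2 ^ (k + 1)) (by positivity)
    (fun S hS' => (not_le.mp (hS S hS')).le)
  obtain ⟨e1, e2⟩ := pat_congr (oq Q y) d a (sg σ) hda
  rw [← e1, ← e2] at hpr
  have h2k : (0 : ℝ) < 2 ^ k := by positivity
  have e3 : (2 : ℝ) ^ k * (η / 2 ^ (k + 1) * (oq Q y).card) = η / 2 * (oq Q y).card := by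
    rw [pow_succ]
    field_simp
  rw [e3] at hpr
  have c1' : (pat (oq Q y) d (sg σ) : ℝ) ≤ cnt Q d σ y := by exact_mod_cast c1
  have c2' : (cnt Q d σ y : ℝ) ≤ pat (oq Q y) d (sg σ) + 1 := by exact_mod_cast c2
  have c3' : ((oq Q y).card : ℝ) ≤ (primesIn Q y).ncard := by exact_mod_cast c3
  have c4' : ((primesIn Q y).ncard : ℝ) ≤ (oq Q y).card + 1 := by exact_mod_cast c4
  have hz' : (2 : ℝ) ^ k * zer (oq Q y) d ≤ 2 ^ k * (k * (2 * (2 * (y : ℝ) ^ τ))) :=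
    mul_le_mul_of_nonneg_left hz h2k.le
  rw [abs_le] at hpr ⊢
  have g1 := mul_le_mul_of_nonneg_left c1' h2k.le
  have g2 := mul_le_mul_of_nonneg_left c2' h2k.le
  have g3 := mul_le_mul_of_nonneg_left c3' hη.le
  constructor <;> nlinarith [hpr.1, hpr.2]

/-- the types are equidistributed if the sums are small -/
lemma core4 (k : ℕ) (ρ τ θ κ η : ℝ) (hτρ : τ + θ < ρ) (hτ : 0 < τ) (hκ : 0 < κ) (hη : 0 < η) :
    ∃ y₀ : ℕ, 2 ≤ y₀ ∧ ∀ (Q : Set ℕ) (y : ℕ), y₀ ≤ y →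
      κ * (y : ℝ) ^ ρ ≤ (oq Q y).card * Real.log y →
      ∀ d a : Fin k → ℤ, (∀ i, d i % 4 = 0 ∨ d i % 4 = 1) → (∀ i, d i ≠ 0) →
      (∀ p ∈ oq Q y, ∀ i, jacobiSym (d i) p = jacobiSym (a i) p) →
      (∀ i, Real.log |(d i : ℝ)| ≤ 2 * (y : ℝ) ^ τ) →
      (∀ S : Finset (Fin k), S.Nonempty → ¬ η / 2 ^ (k + 1) * (y : ℝ) ^ (-θ) * (oq Q y).card ≤
        |((∑ p ∈ oq Q y, jacobiSym (pr a S) p : ℤ) : ℝ)|) →
      ∀ σ : Fin k → Bool, |2 ^ k * (cnt Q d σ y : ℝ) - (primesIn Q y).ncard| ≤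
        η * (y : ℝ) ^ (-θ) * (primesIn Q y).ncard := by
  obtain ⟨y₀, hy2, hy₀⟩ := large k (ρ - θ) τ κ (η / 2) (by linarith) hτ hκ (by positivity)
  refine ⟨y₀, hy2, fun Q y hy hQ d a hd hd0 hda hlog hS σ => ?_⟩
  have hy0 : (0 : ℝ) < y := by exact_mod_cast (by omega : 0 < y)
  have hyθ : 0 < (y : ℝ) ^ (-θ) := Real.rpow_pos_of_pos hy0 _
  have h1 := hy₀ y hy ((y : ℝ) ^ (-θ) * (oq Q y).card) (by
    have e1 : (y : ℝ) ^ (ρ - θ) = (y : ℝ) ^ (-θ) * (y : ℝ) ^ ρ := by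
      rw [← Real.rpow_add hy0]
      congr 1
      ring
    rw [e1]
    have := mul_le_mul_of_nonneg_left hQ hyθ.le
    calc κ * ((y : ℝ) ^ (-θ) * (y : ℝ) ^ ρ) = (y : ℝ) ^ (-θ) * (κ * (y : ℝ) ^ ρ) := by ring
      _ ≤ (y : ℝ) ^ (-θ) * ((oq Q y).card * Real.log y) := this
      _ = _ := by ring)
  refine core_pt k τ (η * (y : ℝ) ^ (-θ)) (by positivity) Q y ?_ d a hd hd0 hda hlog ?_ σ
  · refine h1.trans (le_of_eq ?_)
    ring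
  · intro S hSn h
    refine hS S hSn (le_trans (le_of_eq ?_) h)
    ring

open Classical in
/-- few tuples have a large sum for some `y` -/
lemma union4 (hB : S_BAD4) (k : ℕ) (hk : 1 ≤ k) (A ρ θ κ η ε : ℝ) (hA0 : 0 < A) (hρ : 0 < ρ)
    (hρ1 : ρ ≤ 1) (hθ : 0 ≤ θ) (hA : 4 * θ + 1 / A < ρ) (hκ : 0 < κ) (hκ1 : κ ≤ 1) (hη : 0 < η)
    (hη1 : η ≤ 1) (hε : 0 < ε) :
    ∃ c K : ℝ, 0 < c ∧ 0 < K ∧ ∀ (Q : Set ℕ) (X : ℕ) (D : Fin k → ℤ), 1 ≤ X →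
    (((Fintype.piFinset fun _ : Fin k => SP.sq X).filter (fun m : Fin k → ℕ =>
      ∃ y : ℕ, (Real.log X / A) ^ A ≤ y ∧ (y : ℝ) ≤ (X : ℝ) ^ c ∧
        κ * (y : ℝ) ^ ρ ≤ (oq Q y).card * Real.log y ∧
        ∃ S : Finset (Fin k), S.Nonempty ∧ η * (y : ℝ) ^ (-θ) * (oq Q y).card ≤
          |((∑ p ∈ oq Q y, jacobiSym (pr (fun i => D i * (m i : ℤ)) S) p : ℤ) : ℝ)|)).card : ℝ) ≤
      K * (X : ℝ) ^ (k - ρ + 1 / A + 4 * θ + ε) := by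
  obtain ⟨c₀, K₀, hc₀, hK₀, hbad⟩ := hB A ρ θ κ η (ε / 2) hA0 hρ hρ1 hθ hA hκ hκ1 hη hη1
    (by positivity)
  refine ⟨min c₀ (ε / 2), 2 ^ (k + 1) * K₀, lt_min hc₀ (by positivity), by positivity,
    fun Q X D hX => ?_⟩
  have hX1 : (1 : ℝ) ≤ X := by exact_mod_cast hX
  have hX0 : (0 : ℝ) < X := by linarith
  set c : ℝ := min c₀ (ε / 2) with hc
  have hcc : c ≤ c₀ := min_le_left _ _
  have hce : c ≤ ε / 2 := min_le_right _ _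
  have hc0 : 0 < c := lt_min hc₀ (by positivity)
  set G : ℕ → Finset (Fin k → ℕ) := fun y => (Fintype.piFinset fun _ : Fin k => SP.sq X).filter
    (fun m : Fin k → ℕ => ∃ S : Finset (Fin k), S.Nonempty ∧ η * (y : ℝ) ^ (-θ) * (oq Q y).card ≤
        |((∑ p ∈ oq Q y, jacobiSym (pr (fun i => D i * (m i : ℤ)) S) p : ℤ) : ℝ)|) with hG
  set Y : Finset ℕ := (range (⌊(X : ℝ) ^ c⌋₊ + 1)).filter (fun y : ℕ =>
    (Real.log X / A) ^ A ≤ y ∧ (y : ℝ) ≤ (X : ℝ) ^ c ∧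
        κ * (y : ℝ) ^ ρ ≤ (oq Q y).card * Real.log y) with hY
  have hsub : ((Fintype.piFinset fun _ : Fin k => SP.sq X).filter (fun m : Fin k → ℕ =>
      ∃ y : ℕ, (Real.log X / A) ^ A ≤ y ∧ (y : ℝ) ≤ (X : ℝ) ^ c ∧
        κ * (y : ℝ) ^ ρ ≤ (oq Q y).card * Real.log y ∧
        ∃ S : Finset (Fin k), S.Nonempty ∧ η * (y : ℝ) ^ (-θ) * (oq Q y).card ≤
          |((∑ p ∈ oq Q y, jacobiSym (pr (fun i => D i * (m i : ℤ)) S) p : ℤ) : ℝ)|)) ⊆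
      Y.biUnion G := by
    intro m hm
    rw [mem_filter] at hm
    obtain ⟨h1, y, h2, h3, h4, h5⟩ := hm
    rw [mem_biUnion]
    refine ⟨y, ?_, ?_⟩
    · rw [hY, mem_filter, mem_range]
      have := Nat.le_floor h3
      exact ⟨by omega, h2, h3, h4⟩
    · rw [hG, mem_filter]
      exact ⟨h1, h5⟩
  have hb : ∀ y ∈ Y, ((G y).card : ℝ) ≤
      2 ^ k * (K₀ * (X : ℝ) ^ (1 - ρ + 1 / A + 4 * θ + ε / 2) * (X : ℝ) ^ (k - 1)) := by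
    intro y hy
    rw [hY, mem_filter] at hy
    obtain ⟨_, h2, h3, h4⟩ := hy
    refine fub_all Q X y _ (η * (y : ℝ) ^ (-θ)) (fun D' => ?_) D
    exact hbad D' Q X y hX h2 (h3.trans (Real.rpow_le_rpow_of_exponent_le hX1 hcc)) h4
  have hYc : (Y.card : ℝ) ≤ 2 * (X : ℝ) ^ (ε / 2) := by
    have h1 : (Y.card : ℝ) ≤ (⌊(X : ℝ) ^ c⌋₊ : ℝ) + 1 := by
      have := card_filter_le (range (⌊(X : ℝ) ^ c⌋₊ + 1)) (fun y : ℕ =>
        (Real.log X / A) ^ A ≤ y ∧ (y : ℝ) ≤ (X : ℝ) ^ c ∧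
        κ * (y : ℝ) ^ ρ ≤ (oq Q y).card * Real.log y)
      rw [card_range] at this
      exact_mod_cast this
    have h2 : (⌊(X : ℝ) ^ c⌋₊ : ℝ) ≤ (X : ℝ) ^ c := Nat.floor_le (by positivity)
    have h3 : (X : ℝ) ^ c ≤ (X : ℝ) ^ (ε / 2) := Real.rpow_le_rpow_of_exponent_le hX1 hce
    have h4 : (1 : ℝ) ≤ (X : ℝ) ^ (ε / 2) := Real.one_le_rpow hX1 (by positivity)
    linarith
  have hpow : (X : ℝ) ^ (1 - ρ + 1 / A + 4 * θ + ε / 2) * (X : ℝ) ^ (k - 1) * (X : ℝ) ^ (ε / 2) =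
      (X : ℝ) ^ ((k : ℝ) - ρ + 1 / A + 4 * θ + ε) := by
    rw [← Real.rpow_natCast (X : ℝ) (k - 1), ← Real.rpow_add hX0, ← Real.rpow_add hX0]
    congr 1
    rw [Nat.cast_sub hk]
    push_cast
    ring
  calc _ ≤ ((∑ y ∈ Y, (G y).card : ℕ) : ℝ) := by
        exact_mod_cast (card_le_card hsub).trans card_biUnion_le
    _ ≤ ∑ y ∈ Y, 2 ^ k * (K₀ * (X : ℝ) ^ (1 - ρ + 1 / A + 4 * θ + ε / 2) * (X : ℝ) ^ (k - 1)) := by
        rw [Nat.cast_sum]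
        exact sum_le_sum hb
    _ = Y.card * (2 ^ k * (K₀ * (X : ℝ) ^ (1 - ρ + 1 / A + 4 * θ + ε / 2) * (X : ℝ) ^ (k - 1))) := by
        rw [sum_const, nsmul_eq_mul]
    _ ≤ 2 * (X : ℝ) ^ (ε / 2) *
        (2 ^ k * (K₀ * (X : ℝ) ^ (1 - ρ + 1 / A + 4 * θ + ε / 2) * (X : ℝ) ^ (k - 1))) :=
        mul_le_mul_of_nonneg_right hYc (by positivity)
    _ = 2 ^ (k + 1) * K₀ * ((X : ℝ) ^ (1 - ρ + 1 / A + 4 * θ + ε / 2) * (X : ℝ) ^ (k - 1) *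
        (X : ℝ) ^ (ε / 2)) := by
        rw [pow_succ]
        ring
    _ = _ := by rw [hpow]

open Classical in
/-- the range theorem -/
lemma range4 (hB : S_BAD4) (k : ℕ) (hk : 1 ≤ k) (A ρ τ θ κ η ε : ℝ) (hA0 : 0 < A) (hρ1 : ρ ≤ 1)
    (hθ : 0 ≤ θ) (hA : 4 * θ + 1 / A < ρ) (hτρ : τ + θ < ρ) (hκ : 0 < κ) (hη : 0 < η)
    (hε : 0 < ε) :
    ∃ c K : ℝ, 0 < c ∧ 0 < K ∧ ∀ (Q : Set ℕ) (X : ℕ) (D : Fin k → ℤ), 1 ≤ X → (∀ i, D i ≠ 0) →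
    (((Fintype.piFinset fun _ : Fin k => SP.sq X).filter (fun m : Fin k → ℕ =>
      (∀ i, (D i * (m i : ℤ)) % 4 = 0 ∨ (D i * (m i : ℤ)) % 4 = 1) ∧
      ∃ y : ℕ, (Real.log X / A) ^ A ≤ y ∧ (y : ℝ) ≤ (X : ℝ) ^ c ∧
        (∀ i, Real.log |(D i : ℝ)| ≤ (y : ℝ) ^ τ) ∧
        κ * (y : ℝ) ^ ρ ≤ (primesIn Q y).ncard * Real.log y ∧
        ∃ σ : Fin k → Bool, ¬ |2 ^ k * (cnt Q (fun i => D i * (m i : ℤ)) σ y : ℝ) -
          (primesIn Q y).ncard| ≤ η * (y : ℝ) ^ (-θ) * (primesIn Q y).ncard)).card : ℝ) ≤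
      K * (X : ℝ) ^ (k - ρ + 1 / A + 4 * θ + ε) := by
  have hiA : 0 < 1 / A := by positivity
  have hρ : 0 < ρ := by linarith
  have hA1 : 1 < A := by
    have h1 : 1 / A < 1 := by linarith
    rwa [div_lt_one hA0] at h1
  set τ₁ : ℝ := max τ (1 / A) with hτ₁
  have hτ₁0 : 0 < τ₁ := lt_max_of_lt_right (by positivity)
  have hτ₁ρ : τ₁ < ρ - θ := max_lt (by linarith) (by linarith)
  obtain ⟨τ', hτ'1, hτ'2⟩ := exists_between hτ₁ρ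
  have hτ'0 : 0 < τ' := hτ₁0.trans hτ'1
  set η₁ : ℝ := min η 1 with hη₁
  have hη₁0 : 0 < η₁ := lt_min hη one_pos
  have hη₁1 : η₁ ≤ 1 := min_le_right _ _
  set κ₁ : ℝ := min κ 1 / 2 with hκ₁
  have hκ₁0 : 0 < κ₁ := by
    have := lt_min hκ one_pos
    positivity
  have hκ₁1 : κ₁ ≤ 1 := by
    have := min_le_right κ (1 : ℝ)
    rw [hκ₁]
    linarith
  have h2k : (1 : ℝ) ≤ 2 ^ (k + 1) := one_le_pow₀ (by norm_num)
  obtain ⟨y₀, hy₀2, hy₀⟩ := core4 k ρ τ' θ κ₁ η₁ (by linarith) hτ'0 hκ₁0 hη₁0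
  obtain ⟨y₁, hy₁2, hy₁⟩ := thick_oq ρ κ hρ hκ
  obtain ⟨y₃, hy₃2, hy₃⟩ := pow_dom A (1 / A) τ' ((le_max_right _ _).trans_lt hτ'1)
  obtain ⟨c, K₀, hc, hK₀, hun⟩ := union4 hB k hk A ρ θ κ₁ (η₁ / 2 ^ (k + 1)) ε hA0 hρ hρ1 hθ hA
    hκ₁0 hκ₁1 (by positivity) ((div_le_self hη₁0.le h2k).trans hη₁1) hε
  set y₂ : ℕ := max (max y₀ y₁) y₃ with hy₂
  set X₀ : ℝ := Real.exp (A * (y₂ : ℝ) ^ (1 / A)) with hX₀
  refine ⟨c, K₀ + X₀ ^ k, hc, by positivity, fun Q X D hX hD => ?_⟩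
  have hX1 : (1 : ℝ) ≤ X := by exact_mod_cast hX
  have hX0 : (0 : ℝ) < X := by linarith
  have hk1 : (1 : ℝ) ≤ k := by exact_mod_cast hk
  have hbig : (1 : ℝ) ≤ (X : ℝ) ^ (k - ρ + 1 / A + 4 * θ + ε) :=
    Real.one_le_rpow hX1 (by have : 0 < 1 / A := by positivity
                             linarith)
  by_cases hXX : (X : ℝ) ≤ X₀
  · -- small `X`
    have h1 : (((Fintype.piFinset fun _ : Fin k => SP.sq X)).card : ℝ) ≤ (X : ℝ) ^ k := by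
      rw [Fintype.card_piFinset, prod_const, card_univ, Fintype.card_fin]
      push_cast
      refine pow_le_pow_left₀ (by positivity) ?_ k
      have : (SP.sq X).card ≤ X := by
        unfold SP.sq
        refine (card_filter_le _ _).trans ?_
        simp
      exact_mod_cast this
    have h2 : (X : ℝ) ^ k ≤ X₀ ^ k := pow_le_pow_left₀ hX0.le hXX k
    have h3 : X₀ ^ k ≤ X₀ ^ k * (X : ℝ) ^ (k - ρ + 1 / A + 4 * θ + ε) :=
      le_mul_of_one_le_right (by positivity) hbig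
    have h4 : 0 ≤ K₀ * (X : ℝ) ^ (k - ρ + 1 / A + 4 * θ + ε) := by positivity
    refine le_trans (by exact_mod_cast card_filter_le _ _) (h1.trans (h2.trans (h3.trans ?_)))
    rw [add_mul]
    linarith
  push Not at hXX
  have hlogX : A * (y₂ : ℝ) ^ (1 / A) < Real.log X := by
    rw [Real.lt_log_iff_exp_lt hX0]
    exact hXX
  have hlogX' : (y₂ : ℝ) ^ (1 / A) < Real.log X / A := by
    rw [lt_div_iff₀ hA0]
    linarith
  have h4 : 0 ≤ X₀ ^ k * (X : ℝ) ^ (k - ρ + 1 / A + 4 * θ + ε) := by positivity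
  rw [add_mul]
  refine le_trans ?_ ((hun Q X D hX).trans (by linarith))
  refine Nat.cast_le.mpr (card_le_card ?_)
  intro m hm
  rw [mem_filter] at hm
  obtain ⟨hm1, hm4, y, hyX, hyc, hDy, hQ, σ, hσ⟩ := hm
  rw [mem_filter]
  refine ⟨hm1, y, hyX, hyc, ?_⟩
  have hyy : y₂ ≤ y := by
    have h1 : (y₂ : ℝ) ≤ y := by
      calc (y₂ : ℝ) = ((y₂ : ℝ) ^ (1 / A)) ^ A := by
            rw [← Real.rpow_mul (Nat.cast_nonneg _), one_div, inv_mul_cancel₀ hA0.ne',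
              Real.rpow_one]
        _ ≤ (Real.log X / A) ^ A := Real.rpow_le_rpow (by positivity) hlogX'.le hA0.le
        _ ≤ y := hyX
    exact_mod_cast h1
  have hyy0 : y₀ ≤ y := ((le_max_left _ _).trans (le_max_left _ _)).trans hyy
  have hyy1 : y₁ ≤ y := ((le_max_right _ _).trans (le_max_left _ _)).trans hyy
  have hyy3 : y₃ ≤ y := (le_max_right _ _).trans hyy
  have hQ' := hy₁ Q y hyy1 hQ
  refine ⟨hQ', ?_⟩
  by_contra hno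
  push Not at hno
  have hy1 : (1 : ℝ) ≤ y := by exact_mod_cast (by omega : 1 ≤ y)
  have hm' : ∀ i, 1 ≤ m i ∧ m i ≤ X := by
    intro i
    have := Fintype.mem_piFinset.mp hm1 i
    unfold SP.sq at this
    rw [mem_filter, mem_Icc] at this
    exact this.1
  have hlog : ∀ i, Real.log |((D i * (m i : ℤ) : ℤ) : ℝ)| ≤ 2 * (y : ℝ) ^ τ' := by
    intro i
    have h1 : (1 : ℝ) ≤ m i := by exact_mod_cast (hm' i).1
    have h2 : (m i : ℝ) ≤ X := by exact_mod_cast (hm' i).2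
    have h3 : (0 : ℝ) < |(D i : ℝ)| := abs_pos.mpr (by exact_mod_cast hD i)
    push_cast
    rw [abs_mul, Nat.abs_cast, Real.log_mul h3.ne' (by linarith)]
    have h4 : Real.log (m i) ≤ Real.log X := Real.log_le_log (by linarith) h2
    have h0 : 0 ≤ Real.log X / A := div_nonneg (Real.log_nonneg hX1) hA0.le
    have h5 : Real.log X / A ≤ (y : ℝ) ^ (1 / A) := by
      calc Real.log X / A = ((Real.log X / A) ^ A) ^ (1 / A) := by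
            rw [← Real.rpow_mul h0, mul_one_div_cancel hA0.ne', Real.rpow_one]
        _ ≤ (y : ℝ) ^ (1 / A) := Real.rpow_le_rpow
            (Real.rpow_nonneg h0 _) hyX (by positivity)
    have h5' : Real.log X ≤ A * (y : ℝ) ^ (1 / A) := by
      rw [div_le_iff₀ hA0] at h5
      linarith
    have h6 := hy₃ y hyy3
    have h7 : (y : ℝ) ^ τ ≤ (y : ℝ) ^ τ' :=
      Real.rpow_le_rpow_of_exponent_le hy1 ((le_max_left _ _).trans hτ'1.le)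
    linarith [hDy i]
  have := hy₀ Q y hyy0 hQ' (fun i => D i * (m i : ℤ))
    (fun i => D i * (m i : ℤ)) hm4
    (fun i => mul_ne_zero (hD i) (by have := (hm' i).1
                                     exact_mod_cast (by omega : m i ≠ 0)))
    (fun p _ i => rfl) hlog (fun S hS => not_le.mpr (hno S hS)) σ
  refine hσ (this.trans (mul_le_mul_of_nonneg_right ?_ (Nat.cast_nonneg _)))
  exact mul_le_mul_of_nonneg_right (min_le_left _ _) (by positivity)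

lemma set4 (hB : S_BAD4) (k : ℕ) (hk : 1 ≤ k) (A ρ τ θ κ η ε : ℝ) (hA0 : 0 < A) (hρ1 : ρ ≤ 1)
    (hθ : 0 ≤ θ) (hA : 4 * θ + 1 / A < ρ) (hτρ : τ + θ < ρ) (hκ : 0 < κ) (hη : 0 < η)
    (hε : 0 < ε) :
    ∃ c K : ℝ, 0 < c ∧ 0 < K ∧ ∀ (Q : Set ℕ) (D : Fin k → ℤ) (X : ℕ), (∀ i, D i ≠ 0) → 1 ≤ X →
      ({m : Fin k → ℕ | (∀ i, m i ≤ X ∧ Squarefree (m i) ∧ NegFund (D i * (m i : ℤ))) ∧
        ∃ y : ℕ, (Real.log X / A) ^ A ≤ y ∧ (y : ℝ) ≤ (X : ℝ) ^ c ∧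
          (∀ i, Real.log |(D i : ℝ)| ≤ (y : ℝ) ^ τ) ∧
          κ * (y : ℝ) ^ ρ ≤ (primesIn Q y).ncard * Real.log y ∧
          ¬ Balanced (primesIn Q y) (fun i => D i * (m i : ℤ))
            (η * (y : ℝ) ^ (-θ))}.ncard : ℝ) ≤
        K * (X : ℝ) ^ (k - ρ + 1 / A + 4 * θ + ε) := by
  classical
  obtain ⟨c, K, hc, hK, h⟩ := range4 hB k hk A ρ τ θ κ η ε hA0 hρ1 hθ hA hτρ hκ hη hε
  refine ⟨c, K, hc, hK, fun Q D X hD hX => le_trans ?_ (h Q X D hX hD)⟩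
  rw [← Set.ncard_coe_finset]
  refine Nat.cast_le.mpr (Set.ncard_le_ncard ?_ (Finset.finite_toSet _))
  rintro m ⟨h1, y, h2, h3, h4, h5, h6⟩
  rw [mem_coe, mem_filter, Fintype.mem_piFinset]
  refine ⟨fun i => ?_, fun i => ?_, y, h2, h3, h4, h5, ?_⟩
  · unfold SP.sq
    rw [mem_filter, mem_Icc]
    exact ⟨⟨Nat.one_le_iff_ne_zero.mpr (h1 i).2.1.ne_zero, (h1 i).1⟩, (h1 i).2.1⟩
  · obtain ⟨_, h | ⟨n, h, _⟩⟩ := (h1 i).2.2
    · exact Or.inr h.1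
    · exact Or.inl (by omega)
  · rw [balanced_iff] at h6
    push Not at h6
    obtain ⟨σ, hσ⟩ := h6
    exact ⟨σ, not_le.mpr hσ⟩

end Pool.Agent.H249_JS
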