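import Pool.Agent.H249_JS.G
import Pool.Agent.H249_JS.M
import Pool.Agent.H249_JS.J

set_option autoImplicit false

/-! # Joint splitting types: every tuple has a good multiplier, the full range -/

namespace Pool.Agent.H249_JS

open Finset Pool.Agent.Y549 Pool.Agent.Y549.SP

/-- every tuple has a good multiplier -/
lemma every5 (hB : S_BAD4) (k : ℕ) (ρ θ a b η : ℝ) (Q : Set ℕ)
    (hθ : 0 ≤ θ) (hθρ : 4 * θ < ρ) (hρ1 : ρ ≤ 1) (ha : 1 < a * (ρ - θ)) (hη : 0 < η) (hQ : Thick Q ρ) :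
    ∃ C T₀ : ℝ, 0 < C ∧ ∀ D : Fin k → ℤ, (∀ i, NegFund (D i)) → T₀ ≤ top D →
      ∃ m : Fin k → ℕ, (∀ i, 1 ≤ m i ∧ (m i : ℝ) ≤ Real.log (top D) ^ C ∧ Squarefree (m i) ∧
        NegFund (D i * (m i : ℤ))) ∧
        (∀ t : ℝ, Real.log (top D) ^ a ≤ t → t ≤ Real.log (top D) ^ b →
          Balanced (below Q t) (fun i => D i * (m i : ℤ)) (η * t ^ (-θ))) ∧
        (1 / 2 < ρ - θ →
          Balanced (below Q (thr (fun i => D i * (m i : ℤ)))) (fun i => D i * (m i : ℤ))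
            (η * thr (fun i => D i * (m i : ℤ)) ^ (-θ))) := by
  classical
  have hρ : 0 < ρ := by linarith
  obtain ⟨φ, hφ⟩ : ∃ φ : ℝ, φ = ρ - θ := ⟨_, rfl⟩
  rw [← hφ] at ha ⊢
  have hρ0 : 0 < φ := by rw [hφ]; linarith
  have hφ1 : φ ≤ 1 := by rw [hφ]; linarith
  set u : ℝ := if 1 / 2 < φ then 2 else 2 / φ with hu
  have huρ : 1 / φ < u := by
    rw [hu]
    split_ifs with h
    · rw [div_lt_iff₀ hρ0]
      linarith
    · rw [div_lt_div_iff_of_pos_right hρ0]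
      norm_num
  set a₁ : ℝ := min (min a (2 / φ)) u with ha₁
  set B₁ : ℝ := max b 3 with hB₁
  have hB₁3 : 3 ≤ B₁ := le_max_right _ _
  have ha₁ρ : 1 / φ < a₁ := by
    rw [ha₁, lt_min_iff, lt_min_iff]
    refine ⟨⟨?_, ?_⟩, huρ⟩
    · rw [div_lt_iff₀ hρ0]
      exact ha
    · rw [div_lt_div_iff_of_pos_right hρ0]
      norm_num
  obtain ⟨a', ha'1, ha'2⟩ := exists_between ha₁ρ
  have ha₁2 : 1 / 2 < φ → a₁ ≤ 2 := by
    intro h
    have h1 : u = 2 := if_pos h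
    rw [← h1]
    exact min_le_right _ _
  have ha₁a : a₁ ≤ a := (min_le_left _ _).trans (min_le_left _ _)
  have ha₁ρ2 : a₁ ≤ 2 / φ := (min_le_left _ _).trans (min_le_right _ _)
  have h1ρ : 1 ≤ 1 / φ := by
    rw [le_div_iff₀ hρ0]
    linarith
  have ha'01 : 1 < a' := by linarith
  have ha'0 : 0 < a' := by linarith
  have hτρ : 1 / a' + θ < ρ := by
    have h1 : 1 / a' < φ := by
      rw [div_lt_iff₀ ha'0]
      rw [div_lt_iff₀ hρ0] at ha'1
      linarith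
    rw [hφ] at h1
    linarith
  obtain ⟨κ, hκ, yQ, hyQ⟩ := hQ
  obtain ⟨δ, hδ⟩ : ∃ δ : ℝ, δ = (ρ - 4 * θ) / 2 := ⟨_, rfl⟩
  have hδ0 : 0 < δ := by rw [hδ]; linarith
  have hδ1 : δ ≤ 1 / 2 := by rw [hδ]; linarith
  obtain ⟨A, hA⟩ : ∃ A : ℝ, A = 2 / δ := ⟨_, rfl⟩
  have hA5 : 4 ≤ A := by
    rw [hA, le_div_iff₀ hδ0]
    linarith
  have hA0 : 0 < A := by linarith
  have hAδ : A * δ = 2 := by
    rw [hA]
    field_simp
  have hAρ4 : 4 ≤ A * φ := by
    have h1 : 2 * δ ≤ φ := by rw [hδ, hφ]; linarith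
    have h2 := mul_le_mul_of_nonneg_left h1 hA0.le
    linarith
  have hiA : 1 / A = δ / 2 := by
    rw [hA]
    field_simp
  have ha'A : a' ≤ A := by
    have h1 : 2 / φ ≤ A := by
      rw [div_le_iff₀ hρ0]
      linarith
    linarith
  have h2θ : (0 : ℝ) < 2 ^ θ := by positivity
  set η₁ : ℝ := min (η / 2 ^ θ) 1 with hη₁
  have hη₁0 : 0 < η₁ := lt_min (by positivity) one_pos
  have hη₁1 : η₁ ≤ 1 := min_le_right _ _
  set κ₁ : ℝ := min κ 1 / 2 with hκ₁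
  have hκ₁0 : 0 < κ₁ := by
    have := lt_min hκ one_pos
    positivity
  have hκ₁1 : κ₁ ≤ 1 := by
    have := min_le_right κ (1 : ℝ)
    rw [hκ₁]
    linarith
  have h2k : (1 : ℝ) ≤ 2 ^ (k + 1) := one_le_pow₀ (by norm_num)
  obtain ⟨y₀, hy₀2, hy₀⟩ := core4 k ρ (1 / a') θ κ₁ η₁ hτρ (by positivity) hκ₁0 hη₁0
  obtain ⟨y₁, hy₁2, hy₁⟩ := thick_oq ρ κ (by linarith) hκ
  obtain ⟨c, K, hc, hK, hbad⟩ := hB A ρ θ κ₁ (η₁ / 2 ^ (k + 1)) (δ / 8) hA0 hρ hρ1 hθ
    (by rw [hiA]; linarith) hκ₁0 hκ₁1 (by positivity) ((div_le_self hη₁0.le h2k).trans hη₁1)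
    (by positivity)
  obtain ⟨X₀, hX₀⟩ := many2 (1 - δ) (by linarith)
  obtain ⟨C, hC⟩ : ∃ C : ℝ, C = 4 + B₁ / c + 8 * B₁ / δ := ⟨_, rfl⟩
  have hB₁0 : 0 < B₁ := by linarith
  have hc3 : 0 < B₁ / c := by positivity
  have hδ24 : 0 < 8 * B₁ / δ := by positivity
  have hC4 : 4 ≤ C := by rw [hC]; linarith
  have hCc : B₁ ≤ C * c := by
    have h1 : B₁ / c * c = B₁ := div_mul_cancel₀ _ hc.ne'
    rw [hC]
    nlinarith
  have hCδ : B₁ ≤ C * (δ / 8) := by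
    have h1 : 8 * B₁ / δ * (δ / 8) = B₁ := by
      field_simp
    rw [hC]
    nlinarith
  -- eventual conditions
  have hev0 : ∀ᶠ l : ℝ in Filter.atTop, 2 ≤ l ^ (a₁ - a') :=
    (tendsto_rpow_atTop (by linarith : 0 < a₁ - a')).eventually (Filter.eventually_ge_atTop 2)
  have hev1 : ∀ᶠ l : ℝ in Filter.atTop, Real.log l ≤ (1 / (C + 1)) * l ^ (a' / A) := by
    have := (isLittleO_log_rpow_atTop (show (0 : ℝ) < a' / A by positivity)).def
      (show (0 : ℝ) < 1 / (C + 1) by positivity)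
    filter_upwards [this, Filter.eventually_ge_atTop 1] with y hy hy1
    rw [Real.norm_of_nonneg (Real.log_nonneg hy1), Real.norm_of_nonneg (by positivity)] at hy
    exact hy
  have hev2 : ∀ᶠ l : ℝ in Filter.atTop, Real.log (2 * l) ≤ 1 / 4 * (2 * l) ^ (1 / 2 : ℝ) := by
    have h1 := (isLittleO_log_rpow_atTop (r := (1 / 2 : ℝ)) (by norm_num)).bound
      (c := 1 / 4) (by norm_num)
    have h2 : Filter.Tendsto (fun l : ℝ => 2 * l) Filter.atTop Filter.atTop :=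
      Filter.tendsto_id.const_mul_atTop two_pos
    filter_upwards [h2.eventually h1, Filter.eventually_ge_atTop (0 : ℝ)] with l hl hl0
    rw [Real.norm_eq_abs, Real.norm_eq_abs,
      abs_of_nonneg (Real.rpow_nonneg (by linarith : (0 : ℝ) ≤ 2 * l) _)] at hl
    exact (le_abs_self _).trans hl
  have hev3 : ∀ᶠ l : ℝ in Filter.atTop, 2 ≤ Real.log l :=
    Real.tendsto_log_atTop.eventually (Filter.eventually_ge_atTop 2)
  have hev4 : ∀ᶠ l : ℝ in Filter.atTop, max (max ((max (max y₀ y₁) yQ : ℕ) : ℝ) X₀)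
      (max 2 ((2 ^ (k + 1) * K + 1) ^ (4 / δ))) ≤ l := Filter.eventually_ge_atTop _
  obtain ⟨L0, hL0⟩ := Filter.eventually_atTop.mp (hev0.and (hev1.and (hev2.and (hev3.and hev4))))
  refine ⟨C + 1, Real.exp L0, by linarith, fun D hD hT0 => ?_⟩
  obtain ⟨l, hl⟩ : ∃ l : ℝ, l = Real.log (top D) := ⟨_, rfl⟩
  have hd0 : (0 : ℝ) < top D := lt_of_lt_of_le (Real.exp_pos _) hT0
  have hLL : L0 ≤ l := by rw [hl]; exact (Real.le_log_iff_exp_le hd0).mpr hT0
  obtain ⟨e0, e1, e2, e3, e4⟩ := hL0 l hLL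
  have e41 : ((max (max y₀ y₁) yQ : ℕ) : ℝ) ≤ l := ((le_max_left _ _).trans (le_max_left _ _)).trans e4
  have e42 : (X₀ : ℝ) ≤ l := ((le_max_right _ _).trans (le_max_left _ _)).trans e4
  have e43 : (2 : ℝ) ≤ l := ((le_max_left _ _).trans (le_max_right _ _)).trans e4
  have e44 : (2 ^ (k + 1) * K + 1) ^ (4 / δ) ≤ l :=
    ((le_max_right _ _).trans (le_max_right _ _)).trans e4
  have hl0 : (0 : ℝ) < l := by linarith
  have hl1 : (1 : ℝ) < l := by linarith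
  obtain ⟨X, hX⟩ : ∃ X : ℕ, X = ⌈l ^ C⌉₊ := ⟨_, rfl⟩
  have hXlow : l ^ C ≤ X := by rw [hX]; exact Nat.le_ceil _
  have hlC1 : (1 : ℝ) ≤ l ^ C := Real.one_le_rpow hl1.le (by linarith)
  have hXup : (X : ℝ) ≤ l ^ (C + 1) := by
    have b1 : (X : ℝ) < l ^ C + 1 := by rw [hX]; exact Nat.ceil_lt_add_one (by positivity)
    have b2 : l ^ (C + 1) = l ^ C * l := by rw [Real.rpow_add hl0, Real.rpow_one]
    rw [b2]
    nlinarith
  have hlX : l ≤ X := by
    have b1 : l ^ (1 : ℝ) ≤ l ^ C := Real.rpow_le_rpow_of_exponent_le hl1.le (by linarith)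
    rw [Real.rpow_one] at b1
    exact b1.trans hXlow
  have hX1 : (1 : ℝ) ≤ X := by linarith
  have hX0 : (0 : ℝ) < X := by linarith
  have hXn : 1 ≤ X := by exact_mod_cast hX1
  have hlogX0 : 0 ≤ Real.log X := Real.log_nonneg hX1
  have hlogX : Real.log X ≤ l ^ (a' / A) := by
    have b1 := Real.log_le_log hX0 hXup
    rw [Real.log_rpow hl0] at b1
    have b2 : (C + 1) * Real.log l ≤ (C + 1) * ((1 / (C + 1)) * l ^ (a' / A)) :=
      mul_le_mul_of_nonneg_left e1 (by linarith)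
    have b3 : (C + 1) * ((1 / (C + 1)) * l ^ (a' / A)) = l ^ (a' / A) := by
      have : C + 1 ≠ 0 := by linarith
      field_simp
    linarith
  have hlogXl : Real.log X ≤ l := by
    refine hlogX.trans ?_
    calc l ^ (a' / A) ≤ l ^ (1 : ℝ) := Real.rpow_le_rpow_of_exponent_le hl1.le (by
          rw [div_le_one hA0]
          exact ha'A)
      _ = l := Real.rpow_one l
  have hXA : (Real.log X / A) ^ A ≤ l ^ a' := by
    have h1 : Real.log X / A ≤ l ^ (a' / A) := (div_le_self hlogX0 (by linarith)).trans hlogX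
    calc (Real.log X / A) ^ A ≤ (l ^ (a' / A)) ^ A :=
          Real.rpow_le_rpow (div_nonneg hlogX0 hA0.le) h1 hA0.le
      _ = l ^ a' := by
          rw [← Real.rpow_mul hl0.le, div_mul_cancel₀ _ hA0.ne']
  have hl3 : ∀ s : ℝ, B₁ ≤ C * s → 0 < s → l ^ B₁ ≤ (X : ℝ) ^ s := by
    intro s hs hs0
    calc l ^ B₁ ≤ l ^ (C * s) := Real.rpow_le_rpow_of_exponent_le hl1.le hs
      _ = (l ^ C) ^ s := Real.rpow_mul hl0.le _ _
      _ ≤ (X : ℝ) ^ s := Real.rpow_le_rpow (by positivity) hXlow hs0.le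
  -- properties of the range
  have hla' : l ≤ l ^ a' := by
    calc l = l ^ (1 : ℝ) := (Real.rpow_one l).symm
      _ ≤ l ^ a' := Real.rpow_le_rpow_of_exponent_le hl1.le ha'01.le
  have hrange : ∀ y : ℕ, l ^ a' ≤ y → y₀ ≤ y ∧ κ₁ * (y : ℝ) ^ ρ ≤ (oq Q y).card * Real.log y := by
    intro y hy
    have h1 : ((max (max y₀ y₁) yQ : ℕ) : ℝ) ≤ (y : ℝ) :=
      e41.trans (hla'.trans hy)
    have h2 : max (max y₀ y₁) yQ ≤ y := by exact_mod_cast h1
    have h3 : y₀ ≤ y := ((le_max_left _ _).trans (le_max_left _ _)).trans h2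
    have h4 : y₁ ≤ y := ((le_max_right _ _).trans (le_max_left _ _)).trans h2
    have h5 : yQ ≤ y := (le_max_right _ _).trans h2
    exact ⟨h3, hy₁ Q y h4 (hyQ y h5)⟩
  -- the bad numbers
  set bad : ℤ → Prop := fun a => ∃ y : ℕ, l ^ a' ≤ y ∧ (y : ℝ) ≤ l ^ B₁ ∧
    η₁ / 2 ^ (k + 1) * (y : ℝ) ^ (-θ) * (oq Q y).card ≤ |((∑ p ∈ oq Q y, jacobiSym a p : ℤ) : ℝ)| with hbaddef
  set Bd : ℝ := 2 * K * (X : ℝ) ^ (1 - δ - δ / 4) with hBd
  have hBd0 : 0 ≤ Bd := by positivity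
  have hbadc : ∀ a : ℤ, ((SP.sq X).filter (fun n : ℕ => bad (a * (n : ℤ)))).card ≤ ⌊Bd⌋₊ := by
    intro a
    apply Nat.le_floor
    set Y : Finset ℕ := (range (⌊l ^ B₁⌋₊ + 1)).filter (fun y : ℕ => l ^ a' ≤ y ∧ (y : ℝ) ≤ l ^ B₁)
      with hY
    have hsub : (SP.sq X).filter (fun n : ℕ => bad (a * (n : ℤ))) ⊆ Y.biUnion (fun y =>
        (SP.sq X).filter (fun n => η₁ / 2 ^ (k + 1) * (y : ℝ) ^ (-θ) * (oq Q y).card ≤ (|sd Q a n y| : ℝ))) := by
      intro n hn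
      rw [mem_filter] at hn
      obtain ⟨h1, y, h2, h3, h4⟩ := hn
      rw [mem_biUnion]
      refine ⟨y, ?_, ?_⟩
      · rw [hY, mem_filter, mem_range]
        have := Nat.le_floor h3
        exact ⟨by omega, h2, h3⟩
      · rw [mem_filter]
        refine ⟨h1, ?_⟩
        unfold sd
        exact_mod_cast h4
    have hbY : ∀ y ∈ Y, (((SP.sq X).filter (fun n =>
        η₁ / 2 ^ (k + 1) * (y : ℝ) ^ (-θ) * (oq Q y).card ≤ (|sd Q a n y| : ℝ))).card : ℝ) ≤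
        K * (X : ℝ) ^ (1 - ρ + 1 / A + 4 * θ + δ / 8) := by
      intro y hy
      rw [hY, mem_filter] at hy
      exact hbad a Q X y hXn (hXA.trans hy.2.1) (hy.2.2.trans (hl3 c hCc hc)) (hrange y hy.2.1).2
    have hYc : (Y.card : ℝ) ≤ 2 * (X : ℝ) ^ (δ / 8) := by
      have h1 : (Y.card : ℝ) ≤ (⌊l ^ B₁⌋₊ : ℝ) + 1 := by
        have := card_filter_le (range (⌊l ^ B₁⌋₊ + 1)) (fun y : ℕ => l ^ a' ≤ y ∧ (y : ℝ) ≤ l ^ B₁)
        rw [card_range] at this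
        exact_mod_cast this
      have h2 : (⌊l ^ B₁⌋₊ : ℝ) ≤ l ^ B₁ := Nat.floor_le (by positivity)
      have h3 := hl3 (δ / 8) hCδ (by positivity)
      have h4 : (1 : ℝ) ≤ (X : ℝ) ^ (δ / 8) := Real.one_le_rpow hX1 (by positivity)
      linarith
    calc ((((SP.sq X).filter (fun n : ℕ => bad (a * (n : ℤ)))).card : ℕ) : ℝ)
        ≤ ((∑ y ∈ Y, ((SP.sq X).filter (fun n =>
          η₁ / 2 ^ (k + 1) * (y : ℝ) ^ (-θ) * (oq Q y).card ≤ (|sd Q a n y| : ℝ))).card : ℕ) : ℝ) := by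
          exact_mod_cast (card_le_card hsub).trans card_biUnion_le
      _ ≤ ∑ y ∈ Y, K * (X : ℝ) ^ (1 - ρ + 1 / A + 4 * θ + δ / 8) := by
          rw [Nat.cast_sum]
          exact sum_le_sum hbY
      _ = Y.card * (K * (X : ℝ) ^ (1 - ρ + 1 / A + 4 * θ + δ / 8)) := by rw [sum_const, nsmul_eq_mul]
      _ ≤ (2 * (X : ℝ) ^ (δ / 8)) * (K * (X : ℝ) ^ (1 - ρ + 1 / A + 4 * θ + δ / 8)) :=
          mul_le_mul_of_nonneg_right hYc (by positivity)
      _ = 2 * K * ((X : ℝ) ^ (δ / 8) * (X : ℝ) ^ (1 - ρ + 1 / A + 4 * θ + δ / 8)) := by ring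
      _ = Bd := by
          rw [← Real.rpow_add hX0, hiA, hBd]
          congr 2
          have : ρ = 2 * δ + 4 * θ := by rw [hδ]; ring
          rw [this]
          ring
  -- the candidates
  have hTi : ∀ i, ∃ T : Finset ℕ, (∀ m ∈ T, 1 ≤ m ∧ m ≤ X ∧ Squarefree m ∧
      NegFund (D i * (m : ℤ))) ∧ (X : ℝ) ^ (1 - δ) ≤ T.card := by
    intro i
    refine hX₀ (D i) (hD i) X ?_ ?_
    · have b1 : (X₀ : ℝ) ≤ X := e42.trans hlX
      exact_mod_cast b1
    · have h3 := TW.three_le (hD i)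
      have h4 : |(D i : ℝ)| ≤ top D := by
        have h5 : (D i).natAbs ≤ top D := Finset.le_sup (f := fun i => (D i).natAbs) (mem_univ i)
        have h6 : (((D i).natAbs : ℕ) : ℝ) = |(D i : ℝ)| := by
          rw [Nat.cast_natAbs, Int.cast_abs]
        rw [← h6]
        exact_mod_cast h5
      have h7 : Real.log |(D i : ℝ)| ≤ l := by
        rw [hl]
        exact Real.log_le_log (by linarith) h4
      have h8 : 0 ≤ Real.log |(D i : ℝ)| := Real.log_nonneg (by linarith)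
      have b1 : l ^ (4 : ℝ) ≤ l ^ C := Real.rpow_le_rpow_of_exponent_le hl1.le hC4
      have b2 : l ^ (4 : ℝ) = l ^ 4 := by rw [← Real.rpow_natCast]; norm_num
      calc Real.log |(D i : ℝ)| ^ 4 ≤ l ^ 4 := pow_le_pow_left₀ h8 h7 4
        _ ≤ l ^ C := by rw [← b2]; exact b1
        _ ≤ X := hXlow
  choose T hT1 hT2 using hTi
  have hTsub : ∀ i, T i ⊆ SP.sq X := by
    intro i n hn
    obtain ⟨h1, h2, h3, _⟩ := hT1 i n hn
    unfold SP.sq
    rw [mem_filter, mem_Icc]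
    exact ⟨⟨h1, h2⟩, h3⟩
  have hlt : 2 ^ (k + 1) * K * (X : ℝ) ^ (1 - δ - δ / 4) < (X : ℝ) ^ (1 - δ) := by
    have b1 : (X : ℝ) ^ (1 - δ) = (X : ℝ) ^ (δ / 4) * (X : ℝ) ^ (1 - δ - δ / 4) := by
      rw [← Real.rpow_add hX0]
      congr 1
      ring
    have b2 : 2 ^ (k + 1) * K + 1 ≤ (X : ℝ) ^ (δ / 4) := by
      have b3 := Real.rpow_le_rpow (by positivity) (e44.trans hlX) (show 0 ≤ δ / 4 by positivity)
      rw [← Real.rpow_mul (by positivity)] at b3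
      have b4 : 4 / δ * (δ / 4) = 1 := by field_simp
      rwa [b4, Real.rpow_one] at b3
    rw [b1]
    have b4 : (0 : ℝ) < (X : ℝ) ^ (1 - δ - δ / 4) := by positivity
    exact mul_lt_mul_of_pos_right (by linarith) b4
  have hcount : ∀ i, 2 ^ k * ⌊Bd⌋₊ < (T i).card := by
    intro i
    have h1 : ((2 ^ k * ⌊Bd⌋₊ : ℕ) : ℝ) < ((T i).card : ℝ) := by
      push_cast
      calc (2 : ℝ) ^ k * ⌊Bd⌋₊ ≤ 2 ^ k * Bd :=
            mul_le_mul_of_nonneg_left (Nat.floor_le hBd0) (by positivity)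
        _ = 2 ^ (k + 1) * K * (X : ℝ) ^ (1 - δ - δ / 4) := by
            rw [hBd, pow_succ]
            ring
        _ < (X : ℝ) ^ (1 - δ) := hlt
        _ ≤ (T i).card := hT2 i
    exact_mod_cast h1
  obtain ⟨m, hm1, hm2⟩ := choose_tuple bad D X T ⌊Bd⌋₊ hbadc hTsub hcount
  have hm : ∀ i, 1 ≤ m i ∧ m i ≤ X ∧ Squarefree (m i) ∧ NegFund (D i * (m i : ℤ)) :=
    fun i => hT1 i _ (hm1 i)
  refine ⟨m, fun i => ⟨(hm i).1, ?_, (hm i).2.2.1, (hm i).2.2.2⟩, ?_⟩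
  · rw [← hl]
    exact le_trans (by exact_mod_cast (hm i).2.1) hXup
  rw [← hl]
  set d : Fin k → ℤ := fun i => D i * (m i : ℤ) with hd
  obtain ⟨L, hL⟩ : ∃ L : ℝ, L = Real.log (top d) := ⟨_, rfl⟩
  have htd : (top D : ℝ) ≤ top d := by exact_mod_cast top_mul_ge D m fun i => (hm i).1
  have htd2 : (top d : ℝ) ≤ top D * X := by
    exact_mod_cast top_mul_le D m X fun i => (hm i).2.1
  have hLl : l ≤ L := by
    rw [hl, hL]
    exact Real.log_le_log hd0 htd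
  have hL2 : L ≤ 2 * l := by
    have h1 : L ≤ Real.log (top D * X) := by
      rw [hL]
      exact Real.log_le_log (by linarith) htd2
    rw [Real.log_mul hd0.ne' hX0.ne', ← hl] at h1
    linarith
  have hlogL : 2 ≤ Real.log L := e3.trans (Real.log_le_log hl0 hLl)
  have hlogL2 : Real.log L ≤ Real.log (2 * l) := Real.log_le_log (by linarith) hL2
  have hthr : thr d = L ^ 2 * Real.log L ^ 2 := by rw [thr, hL]
  have hthr1 : l ^ 2 + 1 ≤ thr d := by
    rw [hthr]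
    exact TW.thr_ge hl1 hLl hlogL
  have hthr2 : thr d ≤ l ^ 3 := by
    rw [hthr]
    exact TW.thr_le hl1 hLl hL2 hlogL (hlogL2.trans e2)
  have hthr0 : 0 < thr d := lt_of_lt_of_le (by positivity) hthr1
  have main : ∀ t : ℝ, l ^ a₁ ≤ t → t ≤ l ^ B₁ → Balanced (below Q t) d (η * t ^ (-θ)) := by
    intro t ht1 ht2
    have hla1 : 0 < l ^ a₁ := by positivity
    have ht0 : 0 < t := by linarith
    obtain ⟨y, hy⟩ : ∃ y : ℕ, y = ⌈t⌉₊ - 1 := ⟨_, rfl⟩
    obtain ⟨hylt, hyge, hbel⟩ := below_eq Q t ht0 y hy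
    have hyl2 : l ^ a' ≤ (y : ℝ) := by
      have h1 : l ^ a₁ = l ^ (a₁ - a') * l ^ a' := by
        rw [← Real.rpow_add hl0]
        congr 1
        ring
      have h2 : 2 * l ^ a' ≤ l ^ a₁ := by
        rw [h1]
        exact mul_le_mul_of_nonneg_right e0 (by positivity)
      linarith
    have hyl3 : (y : ℝ) ≤ l ^ B₁ := by linarith
    obtain ⟨hr1, hr2⟩ := hrange y hyl2
    have hsqy : l ≤ (y : ℝ) ^ (1 / a') := by
      calc l = (l ^ a') ^ (1 / a') := by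
            rw [← Real.rpow_mul hl0.le, mul_one_div_cancel ha'0.ne', Real.rpow_one]
        _ ≤ _ := Real.rpow_le_rpow (by positivity) hyl2 (by positivity)
    have hlogd : ∀ i, Real.log |(d i : ℝ)| ≤ 2 * (y : ℝ) ^ (1 / a') := by
      intro i
      have h3 := TW.three_le (hm i).2.2.2
      have h5 : (d i).natAbs ≤ top d := Finset.le_sup (f := fun i => (d i).natAbs) (mem_univ i)
      have h6 : (((d i).natAbs : ℕ) : ℝ) = |(d i : ℝ)| := by
        rw [Nat.cast_natAbs, Int.cast_abs]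
      have h4 : |(d i : ℝ)| ≤ top d := by
        rw [← h6]
        exact_mod_cast h5
      have h7 : Real.log |(d i : ℝ)| ≤ L := by
        rw [hL]
        exact Real.log_le_log (by rw [hd]; linarith) h4
      linarith
    have hfin := hy₀ Q y hr1 hr2 d d (fun i => by
        obtain ⟨_, h | ⟨n, h, _⟩⟩ := (hm i).2.2.2
        · exact Or.inr h.1
        · exact Or.inl (by rw [hd]; simp only; omega))
      (fun i => by
        have := (hm i).2.2.2.1
        rw [hd]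
        simp only
        omega)
      (fun p _ i => rfl) hlogd (fun S hS h => hm2 S hS ⟨y, hyl2, hyl3, h⟩)
    rw [← hbel, balanced_iff]
    intro σ
    refine (hfin σ).trans (mul_le_mul_of_nonneg_right ?_ (Nat.cast_nonneg _))
    have hy0 : (0 : ℝ) < y := by linarith
    have ht2 : t ≤ 2 * y := by linarith
    have e5 : (y : ℝ) ^ (-θ) ≤ 2 ^ θ * t ^ (-θ) := by
      rw [Real.rpow_neg hy0.le, Real.rpow_neg ht0.le, ← div_eq_mul_inv, le_div_iff₀ (by positivity)]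
      calc ((y : ℝ) ^ θ)⁻¹ * t ^ θ ≤ ((y : ℝ) ^ θ)⁻¹ * (2 * y) ^ θ :=
            mul_le_mul_of_nonneg_left (Real.rpow_le_rpow ht0.le ht2 hθ) (by positivity)
        _ = 2 ^ θ * (((y : ℝ) ^ θ)⁻¹ * (y : ℝ) ^ θ) := by
            rw [Real.mul_rpow (by norm_num) hy0.le]
            ring
        _ = 2 ^ θ := by rw [inv_mul_cancel₀ (by positivity), mul_one]
    calc η₁ * (y : ℝ) ^ (-θ) ≤ (η / 2 ^ θ) * (2 ^ θ * t ^ (-θ)) :=
          mul_le_mul (min_le_left _ _) e5 (by positivity) (by positivity)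
      _ = η * t ^ (-θ) := by
          field_simp
  refine ⟨fun t ht1 ht2 => main t ?_ ?_, fun hρ2 => main _ ?_ ?_⟩
  · exact (Real.rpow_le_rpow_of_exponent_le hl1.le ha₁a).trans ht1
  · exact ht2.trans (Real.rpow_le_rpow_of_exponent_le hl1.le (le_max_left _ _))
  · have h1 : l ^ a₁ ≤ l ^ 2 := by
      rw [← Real.rpow_two]
      exact Real.rpow_le_rpow_of_exponent_le hl1.le (ha₁2 hρ2)
    linarith
  · have h1 : l ^ 3 ≤ l ^ B₁ := by
      have h2 : l ^ 3 = l ^ (3 : ℝ) := by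
        rw [← Real.rpow_natCast]
        norm_num
      rw [h2]
      exact Real.rpow_le_rpow_of_exponent_le hl1.le hB₁3
    linarith

end Pool.Agent.H249_JS
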