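import Pool.Agent.Y549.SP.NUM2

set_option autoImplicit false

/-! # Joint splitting types: the choice of the parameters, with a power saving (after NUM2.lean) -/

namespace Pool.Agent.H249_JS

open Filter Pool.Agent.Y549.SP

/-- the choice of the parameters -/
def S_NUM4 : Prop := ∀ A ρ θ κ η₀ ε : ℝ, 0 < A → 0 < ρ → ρ ≤ 1 → 0 ≤ θ → 4 * θ + 1 / A < ρ →
  0 < κ → κ ≤ 1 → 0 < η₀ → η₀ ≤ 1 → 0 < ε → ∃ c K : ℝ, 0 < c ∧ 0 < K ∧ ∀ X y N : ℕ, 1 ≤ X →
    (Real.log X / A) ^ A ≤ y →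
    (y : ℝ) ≤ (X : ℝ) ^ c → κ * (y : ℝ) ^ ρ ≤ N * Real.log y → N ≤ y →
    (X : ℝ) ≤ K * (X : ℝ) ^ (1 - ρ + 1 / A + 4 * θ + ε) ∨
    (1 ≤ y ∧ ∃ r k b : ℕ, 0 < b ∧ y ^ r ≤ X ∧ k * b ≤ N ∧ N ≤ k * b + k ∧
      2 * (r : ℝ) ≤ (η₀ * (y : ℝ) ^ (-θ)) * k ∧ 4 * (k : ℝ) ≤ (η₀ * (y : ℝ) ^ (-θ)) * N ∧
      (X : ℝ) ^ (1 + ε / 2) * (k.choose r : ℝ) * (b : ℝ) ^ r ≤
        K * (X : ℝ) ^ (1 - ρ + 1 / A + 4 * θ + ε) * ((η₀ * (y : ℝ) ^ (-θ)) / 4 * b) ^ (2 * r))

lemma choose_le (k r : ℕ) (w : ℝ) (hw : 0 ≤ w) (hk : (k : ℝ) ≤ w * r) :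
    (k.choose r : ℝ) ≤ (Real.exp 1 * w) ^ r := by
  have h1 : (k.choose r : ℝ) ≤ (k : ℝ) ^ r / r.factorial := Nat.choose_le_pow_div r k
  have h2 : (r : ℝ) ^ r / r.factorial ≤ Real.exp r := Real.pow_div_factorial_le_exp (r : ℝ) (Nat.cast_nonneg r) r
  have h3 : Real.exp (r : ℝ) = (Real.exp 1) ^ r := by
    rw [← Real.exp_nat_mul, mul_one]
  have hf : (0 : ℝ) < r.factorial := by exact_mod_cast r.factorial_pos
  calc (k.choose r : ℝ) ≤ (k : ℝ) ^ r / r.factorial := h1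
    _ ≤ (w * r) ^ r / r.factorial := by
        apply div_le_div_of_nonneg_right _ hf.le
        exact pow_le_pow_left₀ (Nat.cast_nonneg _) hk r
    _ = w ^ r * ((r : ℝ) ^ r / r.factorial) := by rw [mul_pow]; ring
    _ ≤ w ^ r * (Real.exp 1) ^ r := by
        rw [← h3]
        exact mul_le_mul_of_nonneg_left h2 (by positivity)
    _ = _ := by rw [← mul_pow, mul_comm w]

theorem num4 : S_NUM4 := by
  intro A ρ θ κ η₀ ε hA0 hρ hρ1 hθ hθρ hκ hκ1 hη₀ hη₀1 hε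
  have hρA : 1 / A < ρ := by linarith
  have hAρ : 1 < A * ρ := by
    rw [div_lt_iff₀ hA0] at hρA
    linarith
  have hρ2 : 0 < ρ - 2 * θ := by
    have : 0 < 1 / A := by positivity
    linarith
  have hAρ2 : 1 < A * (ρ - 2 * θ) := by
    have h1 : 1 / A < ρ - 2 * θ := by linarith
    rw [div_lt_iff₀ hA0] at h1
    linarith
  have hA : 1 < A := by
    have : A * ρ ≤ A * 1 := mul_le_mul_of_nonneg_left hρ1 hA0.le
    linarith
  have he0 : (0 : ℝ) < Real.exp 1 := Real.exp_pos 1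
  obtain ⟨C4, hC4⟩ : ∃ C4 : ℝ, C4 = 288 * Real.exp 1 / (κ * η₀ ^ 4) := ⟨_, rfl⟩
  have hC40 : 0 < C4 := by rw [hC4]; positivity
  obtain ⟨L0, hL0⟩ := NUM2.exists_L0 A (ρ - 2 * θ) κ η₀ ε C4 hA hAρ2 hκ hη₀ hε hC40
  refine ⟨min (ε / 4) (1 / 2), Real.exp (max L0 0), lt_min (by positivity)
    (by norm_num), Real.exp_pos _, ?_⟩
  intro X y N hX hy hyX hN hNy
  have hX1 : (1 : ℝ) ≤ X := by exact_mod_cast hX
  have hX0 : (0 : ℝ) < X := by linarith
  have hL00 : 0 ≤ Real.log X := Real.log_nonneg hX1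
  set K := Real.exp (max L0 0) with hK
  have hK1 : 1 ≤ K := Real.one_le_exp (le_max_right L0 0)
  have hiA : 0 < 1 / A := by positivity
  by_cases hLL : Real.log X < L0
  · left
    have e1 : (X : ℝ) ≤ K := by
      rw [← Real.exp_log hX0, hK]
      exact Real.exp_le_exp.2 (hLL.le.trans (le_max_left _ _))
    have e2 : 1 ≤ (X : ℝ) ^ (1 - ρ + 1 / A + 4 * θ + ε) := Real.one_le_rpow hX1 (by linarith)
    have e3 : K ≤ K * (X : ℝ) ^ (1 - ρ + 1 / A + 4 * θ + ε) :=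
      le_mul_of_one_le_right (by linarith) e2
    linarith
  right
  push Not at hLL
  obtain ⟨hi, hii, hiii⟩ := hL0 _ hLL
  set L := Real.log X with hL
  have hLA2 : 2 ≤ L / A := by
    rw [le_div_iff₀ hA0]
    linarith
  have hLpos : 0 < L := by linarith
  have hLA0 : 0 < L / A := by linarith
  have hyA : (2 : ℝ) ≤ y := by
    refine le_trans ?_ hy
    calc (2 : ℝ) ≤ L / A := hLA2
      _ = (L / A) ^ (1 : ℝ) := (Real.rpow_one _).symm
      _ ≤ (L / A) ^ A := Real.rpow_le_rpow_of_exponent_le (by linarith) hA.le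
  have hy0 : (0 : ℝ) < y := by linarith
  have hy1 : 1 < y := by
    have : (1 : ℝ) < y := by linarith
    exact_mod_cast this
  -- the relative error
  obtain ⟨η, hηdef⟩ : ∃ η : ℝ, η = η₀ * (y : ℝ) ^ (-θ) := ⟨_, rfl⟩
  rw [← hηdef]
  have hyθ1 : (y : ℝ) ^ (-θ) ≤ 1 := Real.rpow_le_one_of_one_le_of_nonpos (by linarith) (by linarith)
  have hη : 0 < η := by rw [hηdef]; positivity
  have hη1 : η ≤ 1 := by
    rw [hηdef]
    exact mul_le_one₀ hη₀1 (by positivity) hyθ1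
  obtain ⟨E, hE⟩ : ∃ E : ℝ, E = 3 * Real.exp 1 / η := ⟨_, rfl⟩
  have hE0 : 0 < E := by rw [hE]; positivity
  obtain ⟨C2, hC2⟩ : ∃ C2 : ℝ, C2 = E * 16 / η ^ 2 := ⟨_, rfl⟩
  have hC20 : 0 < C2 := by rw [hC2]; positivity
  obtain ⟨C3, hC3⟩ : ∃ C3 : ℝ, C3 = 6 * C2 / (η * κ) := ⟨_, rfl⟩
  have hC30 : 0 < C3 := by rw [hC3]; positivity
  have hC34 : C3 = C4 * (y : ℝ) ^ (4 * θ) := by
    have h1 : (y : ℝ) ^ (4 * θ) * ((y : ℝ) ^ (-θ)) ^ 4 = 1 := by
      rw [← Real.rpow_natCast, ← Real.rpow_mul hy0.le, ← Real.rpow_add hy0]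
      push_cast
      rw [show 4 * θ + -θ * 4 = 0 by ring, Real.rpow_zero]
    have h2 : C3 = 288 * Real.exp 1 / (κ * η ^ 4) := by
      rw [hC3, hC2, hE]
      field_simp
      ring
    rw [h2, hC4, hηdef, div_mul_eq_mul_div, div_eq_div_iff (by positivity) (by positivity)]
    calc 288 * Real.exp 1 * (κ * η₀ ^ 4) = 288 * Real.exp 1 * (κ * η₀ ^ 4) * 1 := by ring
      _ = 288 * Real.exp 1 * (κ * η₀ ^ 4) * ((y : ℝ) ^ (4 * θ) * ((y : ℝ) ^ (-θ)) ^ 4) := by rw [h1]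
      _ = _ := by ring
  set l := Real.log y with hl
  have hlogLA : 0 < Real.log (L / A) := Real.log_pos (by linarith)
  have hlA : A * Real.log (L / A) ≤ l := by
    have h1 : Real.log ((L / A) ^ A) = A * Real.log (L / A) := Real.log_rpow hLA0 A
    rw [← h1]
    exact Real.log_le_log (Real.rpow_pos_of_pos hLA0 _) hy
  have hl0 : 0 < l := lt_of_lt_of_le (by positivity) hlA
  set r := Nat.log y X with hr
  have hXne : X ≠ 0 := by omega
  have hr1 : y ^ r ≤ X := Nat.pow_log_le_self y hXne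
  have hr2 : X < y ^ (r + 1) := Nat.lt_pow_succ_log_self hy1 X
  have hrl : (r : ℝ) * l ≤ L := by
    have h1 : ((y ^ r : ℕ) : ℝ) ≤ X := by exact_mod_cast hr1
    have h2 := Real.log_le_log (by positivity) h1
    rw [Nat.cast_pow, Real.log_pow] at h2
    exact h2
  have hyX2 : (y : ℝ) ≤ X := by
    refine hyX.trans ?_
    calc (X : ℝ) ^ (min (ε / 4) (1 / 2)) ≤ (X : ℝ) ^ (1 : ℝ) :=
          Real.rpow_le_rpow_of_exponent_le hX1 ((min_le_right _ _).trans (by norm_num))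
      _ = X := Real.rpow_one _
  have hrpos : 1 ≤ r := Nat.log_pos hy1 (by exact_mod_cast hyX2)
  have hrpos' : (1 : ℝ) ≤ r := by exact_mod_cast hrpos
  have hr0 : (0 : ℝ) < r := by linarith
  -- the number of blocks
  set k := ⌈2 * (r : ℝ) / η⌉₊ with hk
  have hk1 : 2 * (r : ℝ) / η ≤ k := Nat.le_ceil _
  have hk2 : (k : ℝ) < 2 * r / η + 1 := Nat.ceil_lt_add_one (by positivity)
  have hrη : 1 ≤ (r : ℝ) / η := by
    rw [le_div_iff₀ hη]
    linarith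
  have hk3 : (k : ℝ) ≤ 3 * (r / η) := by
    have : 2 * (r : ℝ) / η = 2 * (r / η) := by ring
    linarith
  have hk4 : 2 * (r : ℝ) ≤ η * k := by
    rw [div_le_iff₀ hη] at hk1
    linarith
  have hk0 : (0 : ℝ) < k := lt_of_lt_of_le (by positivity) hk1
  have hk0' : 0 < k := by exact_mod_cast hk0
  -- the number of primes
  have hyρ : (L / A) ^ (A * (ρ - 2 * θ)) ≤ (y : ℝ) ^ (ρ - 2 * θ) := by
    rw [Real.rpow_mul hLA0.le]
    exact Real.rpow_le_rpow (Real.rpow_nonneg hLA0.le _) hy hρ2.le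
  have hyρ0 : 0 < (y : ℝ) ^ ρ := Real.rpow_pos_of_pos hy0 _
  have hNL : 12 * L ≤ η ^ 2 * (N * l) := by
    have h1 : 12 * L / (η₀ ^ 2 * κ) ≤ (y : ℝ) ^ (ρ - 2 * θ) := hii.trans hyρ
    rw [div_le_iff₀ (by positivity)] at h1
    have h2 : (y : ℝ) ^ (ρ - 2 * θ) = (y : ℝ) ^ ρ * ((y : ℝ) ^ (-θ)) ^ 2 := by
      rw [← Real.rpow_natCast ((y : ℝ) ^ (-θ)), ← Real.rpow_mul hy0.le, ← Real.rpow_add hy0]
      push_cast
      congr 1
      ring
    calc 12 * L ≤ (y : ℝ) ^ (ρ - 2 * θ) * (η₀ ^ 2 * κ) := h1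
      _ = η ^ 2 * (κ * (y : ℝ) ^ ρ) := by
          rw [h2, hηdef]
          ring
      _ ≤ η ^ 2 * (N * l) := mul_le_mul_of_nonneg_left hN (by positivity)
  have hNr : 12 * (r : ℝ) ≤ η ^ 2 * N := by
    have h1 : 12 * (r : ℝ) * l ≤ η ^ 2 * N * l := by linarith
    exact le_of_mul_le_mul_right h1 hl0
  have hN4 : 12 * ((r : ℝ) / η) ≤ η * N := by
    have h1 : 12 * ((r : ℝ) / η) = 12 * r / η := by ring
    rw [h1, div_le_iff₀ hη]
    linarith
  have hkN : 4 * (k : ℝ) ≤ η * N := by linarith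
  have hN0 : (0 : ℝ) ≤ N := Nat.cast_nonneg N
  have hkN' : 4 * (k : ℝ) ≤ N := by
    have : η * (N : ℝ) ≤ 1 * N := mul_le_mul_of_nonneg_right hη1 hN0
    linarith
  set b := N / k with hb
  have hb1 : k * b ≤ N := Nat.mul_div_le N k
  have hb2 : N < k * b + k := by
    have := Nat.lt_mul_div_succ N hk0'
    rw [mul_add, mul_one] at this
    exact this
  have hb2' : (N : ℝ) < k * b + k := by exact_mod_cast hb2
  have hb3 : (N : ℝ) ≤ 2 * (k * b) := by linarith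
  have hb4 : 0 < b := by
    rcases Nat.eq_zero_or_pos b with h | h
    · rw [h] at hb3
      simp only [Nat.cast_zero, mul_zero] at hb3
      linarith
    · exact h
  have hb0 : (0 : ℝ) < b := by exact_mod_cast hb4
  -- lower bound for `b / C2`
  have hbC : (y : ℝ) ^ ρ / (C3 * L) ≤ b / C2 := by
    rw [div_le_div_iff₀ (by positivity) hC20, hC3]
    have h1 : κ * (y : ℝ) ^ ρ ≤ 2 * (3 * (r / η) * b) * l := by
      calc κ * (y : ℝ) ^ ρ ≤ N * l := hN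
        _ ≤ 2 * (k * b) * l := mul_le_mul_of_nonneg_right hb3 hl0.le
        _ ≤ 2 * (3 * (r / η) * b) * l := by
            apply mul_le_mul_of_nonneg_right _ hl0.le
            apply mul_le_mul_of_nonneg_left _ (by norm_num)
            exact mul_le_mul_of_nonneg_right hk3 hb0.le
    have h2 : 2 * (3 * ((r : ℝ) / η) * b) * l = 6 * b / η * (r * l) := by ring
    have h3 : κ * (y : ℝ) ^ ρ ≤ 6 * b / η * L := by
      rw [h2] at h1
      exact h1.trans (mul_le_mul_of_nonneg_left hrl (by positivity))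
    have h4 : (b : ℝ) * (6 * C2 / (η * κ) * L) = 6 * b / η * L * (C2 / κ) := by
      field_simp
    rw [h4]
    have h5 : (y : ℝ) ^ ρ * C2 = κ * (y : ℝ) ^ ρ * (C2 / κ) := by
      field_simp
    rw [h5]
    exact mul_le_mul_of_nonneg_right h3 (by positivity)
  have hCL4 : (C4 * L) ^ r ≤ (X : ℝ) ^ (1 / A + ε / 4) := by
    have hCL0 : 0 < C4 * L := by positivity
    have h1 : (r : ℝ) * Real.log (C4 * L) ≤ L * (1 / A + ε / 4) := by
      have e1 : (r : ℝ) * Real.log (C4 * L) ≤ r * ((1 + A * ε / 4) * Real.log (L / A)) :=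
        mul_le_mul_of_nonneg_left hiii (by positivity)
      have e2 : (r : ℝ) * (A * Real.log (L / A)) ≤ L :=
        (mul_le_mul_of_nonneg_left hlA (by positivity)).trans hrl
      have e3 : (r : ℝ) * ((1 + A * ε / 4) * Real.log (L / A)) =
          (1 / A + ε / 4) * (r * (A * Real.log (L / A))) := by
        field_simp
      rw [e3] at e1
      have e4 : (1 / A + ε / 4) * (r * (A * Real.log (L / A))) ≤ (1 / A + ε / 4) * L :=
        mul_le_mul_of_nonneg_left e2 (by positivity)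
      linarith
    have h2 : (C4 * L) ^ r = Real.exp (r * Real.log (C4 * L)) := by
      rw [← Real.log_pow, Real.exp_log (pow_pos hCL0 r)]
    rw [h2, Real.rpow_def_of_pos hX0]
    exact Real.exp_le_exp.2 h1
  have hCL : (C3 * L) ^ r ≤ (X : ℝ) ^ (1 / A + 4 * θ + ε / 4) := by
    have h1 : ((y : ℝ) ^ (4 * θ)) ^ r ≤ (X : ℝ) ^ (4 * θ) := by
      have h2 : ((y : ℝ) ^ (4 * θ)) ^ r = ((y : ℝ) ^ r) ^ (4 * θ) := by
        rw [← Real.rpow_natCast, ← Real.rpow_mul hy0.le, mul_comm, Real.rpow_mul hy0.le,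
          Real.rpow_natCast]
      rw [h2]
      refine Real.rpow_le_rpow (by positivity) ?_ (by linarith)
      exact_mod_cast hr1
    calc (C3 * L) ^ r = (C4 * L) ^ r * ((y : ℝ) ^ (4 * θ)) ^ r := by
          rw [hC34, ← mul_pow]
          congr 1
          ring
      _ ≤ (X : ℝ) ^ (1 / A + ε / 4) * (X : ℝ) ^ (4 * θ) :=
          mul_le_mul hCL4 h1 (by positivity) (by positivity)
      _ = _ := by
          rw [← Real.rpow_add hX0]
          congr 1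
          ring
  -- lower bound for `(y ^ ρ) ^ r`
  have hyr : (X : ℝ) ^ (ρ - ε / 4) ≤ ((y : ℝ) ^ ρ) ^ r := by
    have h1 : (X : ℝ) ≤ (y : ℝ) ^ r * y := by
      have h1 : (X : ℝ) < ((y ^ (r + 1) : ℕ) : ℝ) := by exact_mod_cast hr2
      rw [Nat.cast_pow, pow_succ] at h1
      exact h1.le
    have hyc : (y : ℝ) ≤ (X : ℝ) ^ (ε / 4) :=
      hyX.trans (Real.rpow_le_rpow_of_exponent_le hX1 (min_le_left _ _))
    have h2 : (X : ℝ) ^ (1 - ε / 4) ≤ (y : ℝ) ^ r := by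
      rw [Real.rpow_sub hX0, Real.rpow_one, div_le_iff₀ (Real.rpow_pos_of_pos hX0 _)]
      exact h1.trans (mul_le_mul_of_nonneg_left hyc (by positivity))
    have h3 : ((y : ℝ) ^ ρ) ^ r = ((y : ℝ) ^ r) ^ ρ := by
      rw [← Real.rpow_natCast, ← Real.rpow_mul hy0.le, mul_comm, Real.rpow_mul hy0.le,
        Real.rpow_natCast]
    rw [h3]
    calc (X : ℝ) ^ (ρ - ε / 4) ≤ (X : ℝ) ^ ((1 - ε / 4) * ρ) := by
          apply Real.rpow_le_rpow_of_exponent_le hX1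
          have : ε / 4 * ρ ≤ ε / 4 * 1 := mul_le_mul_of_nonneg_left hρ1 (by positivity)
          linarith
      _ = ((X : ℝ) ^ (1 - ε / 4)) ^ ρ := Real.rpow_mul hX0.le _ _
      _ ≤ _ := Real.rpow_le_rpow (Real.rpow_nonneg hX0.le _) h2 hρ.le
  have hmain : (X : ℝ) ^ (ρ - 1 / A - 4 * θ - ε / 2) ≤ (b / C2) ^ r := by
    have hCL0 : 0 < (C3 * L) ^ r := by positivity
    calc (X : ℝ) ^ (ρ - 1 / A - 4 * θ - ε / 2) =
          (X : ℝ) ^ (ρ - ε / 4) / (X : ℝ) ^ (1 / A + 4 * θ + ε / 4) := by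
          rw [← Real.rpow_sub hX0]
          congr 1
          ring
      _ ≤ ((y : ℝ) ^ ρ) ^ r / (C3 * L) ^ r :=
          div_le_div₀ (by positivity) hyr hCL0 hCL
      _ = ((y : ℝ) ^ ρ / (C3 * L)) ^ r := (div_pow _ _ _).symm
      _ ≤ (b / C2) ^ r := pow_le_pow_left₀ (by positivity) hbC r
  have h2k : (k.choose r : ℝ) ≤ E ^ r := by
    have h1 := choose_le k r (3 / η) (by positivity) (by
      calc (k : ℝ) ≤ 3 * (r / η) := hk3
        _ = 3 / η * r := by ring)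
    have h2 : Real.exp 1 * (3 / η) = E := by
      rw [hE]
      ring
    rwa [h2] at h1
  refine ⟨by omega, r, k, b, hb4, hr1, hb1, hb2.le, hk4, hkN, ?_⟩
  have e1 : (η / 4 * b) ^ (2 * r) = (b / C2) ^ r * E ^ r * (b : ℝ) ^ r := by
    rw [pow_mul, ← mul_pow, ← mul_pow]
    congr 1
    rw [hC2]
    field_simp
    ring
  have e2 : (X : ℝ) ^ (1 + ε / 2) =
      (X : ℝ) ^ (1 - ρ + 1 / A + 4 * θ + ε) * (X : ℝ) ^ (ρ - 1 / A - 4 * θ - ε / 2) := by
    rw [← Real.rpow_add hX0]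
    congr 1
    ring
  have hXp : 0 < (X : ℝ) ^ (1 - ρ + 1 / A + 4 * θ + ε) := Real.rpow_pos_of_pos hX0 _
  have hbr : 0 < (b : ℝ) ^ r := by positivity
  rw [e1, e2]
  calc (X : ℝ) ^ (1 - ρ + 1 / A + 4 * θ + ε) * (X : ℝ) ^ (ρ - 1 / A - 4 * θ - ε / 2) *
        (k.choose r : ℝ) * (b : ℝ) ^ r ≤
        (X : ℝ) ^ (1 - ρ + 1 / A + 4 * θ + ε) * (b / C2) ^ r * E ^ r * (b : ℝ) ^ r := by
        apply mul_le_mul_of_nonneg_right _ hbr.le
        apply mul_le_mul _ h2k (by positivity) (by positivity)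
        exact mul_le_mul_of_nonneg_left hmain hXp.le
    _ = 1 * ((X : ℝ) ^ (1 - ρ + 1 / A + 4 * θ + ε) * ((b / C2) ^ r * E ^ r *
          (b : ℝ) ^ r)) := by ring
    _ ≤ K * ((X : ℝ) ^ (1 - ρ + 1 / A + 4 * θ + ε) * ((b / C2) ^ r * E ^ r *
          (b : ℝ) ^ r)) := by
        apply mul_le_mul_of_nonneg_right hK1
        positivity
    _ = _ := by ring

end Pool.Agent.H249_JS
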